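import Mathlib

/-!
# `|tr ((J S)^(2k))| ≤ tr (S^(2k))` for a hermitian matrix `S` and a diagonal matrix `J` of signs
-/

set_option autoImplicit false

namespace Run7.h923.ZT

open Matrix

set_option linter.unusedSectionVars false

variable {I : Type} [Fintype I] [DecidableEq I]

/-- the square of the Frobenius norm -/
noncomputable def fro (P : Matrix I I ℂ) : ℝ := ∑ x, ∑ y, ‖P x y‖ ^ 2

theorem fro_nonneg (P : Matrix I I ℂ) : 0 ≤ fro P :=
  Finset.sum_nonneg fun _ _ => Finset.sum_nonneg fun _ _ => by positivity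

theorem trace_conj_mul (P : Matrix I I ℂ) : (Pᴴ * P).trace = (fro P : ℂ) := by
  unfold fro
  simp only [Matrix.trace, Matrix.diag_apply, Matrix.mul_apply, Matrix.conjTranspose_apply]
  push_cast
  rw [Finset.sum_comm]
  refine Finset.sum_congr rfl fun x _ => Finset.sum_congr rfl fun y _ => ?_
  rw [Complex.star_def, ← Complex.normSq_eq_conj_mul_self, Complex.normSq_eq_norm_sq]
  push_cast
  rfl

theorem norm_trace_mul_sq_le (P Q : Matrix I I ℂ) :
    ‖(P * Q).trace‖ ^ 2 ≤ fro P * fro Q := by
  have h1 : ‖(P * Q).trace‖ ≤ ∑ z : I × I, ‖P z.1 z.2‖ * ‖Q z.2 z.1‖ := by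
    rw [Fintype.sum_prod_type]
    simp only [Matrix.trace, Matrix.diag_apply, Matrix.mul_apply]
    refine (norm_sum_le _ _).trans (Finset.sum_le_sum fun x _ => ?_)
    refine (norm_sum_le _ _).trans (Finset.sum_le_sum fun y _ => ?_)
    rw [norm_mul]
  have h2 := Finset.sum_mul_sq_le_sq_mul_sq (Finset.univ : Finset (I × I))
    (fun z => ‖P z.1 z.2‖) (fun z => ‖Q z.2 z.1‖)
  have h3 : ∑ z : I × I, ‖P z.1 z.2‖ ^ 2 = fro P := by
    rw [Fintype.sum_prod_type]; rfl
  have h4 : ∑ z : I × I, ‖Q z.2 z.1‖ ^ 2 = fro Q := by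
    rw [Fintype.sum_prod_type, Finset.sum_comm]; rfl
  rw [h3, h4] at h2
  have h5 : (0 : ℝ) ≤ ‖(P * Q).trace‖ := norm_nonneg _
  nlinarith

/-- the diagonal matrix of signs, or the identity -/
noncomputable def Jb (σ : I → ℂ) (b : Bool) : Matrix I I ℂ :=
  if b then Matrix.diagonal σ else 1

/-- the word `∏ J^{b_i} S` -/
noncomputable def W (σ : I → ℂ) (S : Matrix I I ℂ) (l : List Bool) : Matrix I I ℂ :=
  (l.map fun b => Jb σ b * S).prod

theorem W_nil (σ : I → ℂ) (S : Matrix I I ℂ) : W σ S [] = 1 := rfl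

theorem W_cons (σ : I → ℂ) (S : Matrix I I ℂ) (b : Bool) (l : List Bool) :
    W σ S (b :: l) = Jb σ b * S * W σ S l := by
  unfold W
  rw [List.map_cons, List.prod_cons]

theorem W_append (σ : I → ℂ) (S : Matrix I I ℂ) (l m : List Bool) :
    W σ S (l ++ m) = W σ S l * W σ S m := by
  unfold W
  rw [List.map_append, List.prod_append]

theorem Jb_false (σ : I → ℂ) : Jb σ false = 1 := rfl

theorem Jb_true (σ : I → ℂ) : Jb σ true = Matrix.diagonal σ := rfl

theorem fro_Jb (σ : I → ℂ) (hσ : ∀ x, ‖σ x‖ = 1) (b : Bool) (Y : Matrix I I ℂ) :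
    fro (Jb σ b * Y) = fro Y := by
  cases b
  · rw [Jb_false, one_mul]
  · rw [Jb_true]
    unfold fro
    refine Finset.sum_congr rfl fun x _ => Finset.sum_congr rfl fun y _ => ?_
    rw [Matrix.diagonal_mul, norm_mul, hσ x, one_mul]

theorem Jb_herm (σ : I → ℂ) (hσ : ∀ x, star (σ x) = σ x) (b : Bool) : (Jb σ b)ᴴ = Jb σ b := by
  cases b
  · rw [Jb_false, Matrix.conjTranspose_one]
  · rw [Jb_true, Matrix.diagonal_conjTranspose]
    congr 1
    funext x
    exact hσ x

theorem W_conj (σ : I → ℂ) (hσ : ∀ x, star (σ x) = σ x) (S : Matrix I I ℂ) (hS : Sᴴ = S)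
    (l : List Bool) : (W σ S l)ᴴ * S = S * W σ S l.reverse := by
  induction l with
  | nil => simp [W_nil]
  | cons b l ih =>
    rw [W_cons, Matrix.conjTranspose_mul, Matrix.conjTranspose_mul, hS, Jb_herm σ hσ,
      List.reverse_cons, W_append, W_cons, W_nil, mul_one]
    rw [← mul_assoc S, ← ih]
    simp only [mul_assoc]

/-- the reflected word -/
def refl (l : List Bool) : List Bool := false :: (l.reverse ++ false :: l)

theorem trace_refl (σ : I → ℂ) (hσ : ∀ x, star (σ x) = σ x) (S : Matrix I I ℂ) (hS : Sᴴ = S)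
    (l : List Bool) : (W σ S (refl l)).trace = (fro (S * W σ S l) : ℂ) := by
  rw [← trace_conj_mul]
  unfold refl
  rw [W_cons, W_append, W_cons, Jb_false, one_mul, Matrix.conjTranspose_mul, hS,
    W_conj σ hσ S hS, mul_assoc]

theorem word_sq_le (σ : I → ℂ) (hσ : ∀ x, star (σ x) = σ x) (hσ1 : ∀ x, ‖σ x‖ = 1)
    (S : Matrix I I ℂ) (hS : Sᴴ = S) (b c : Bool) (l m : List Bool) :
    ‖(W σ S ((b :: l) ++ (c :: m))).trace‖ ^ 2 ≤
      ‖(W σ S (refl l)).trace‖ * ‖(W σ S (refl m)).trace‖ := by
  rw [W_append]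
  refine (norm_trace_mul_sq_le _ _).trans (le_of_eq ?_)
  rw [W_cons, W_cons, mul_assoc, mul_assoc, fro_Jb σ hσ1, fro_Jb σ hσ1, trace_refl σ hσ S hS,
    trace_refl σ hσ S hS, Complex.norm_real, Complex.norm_real, Real.norm_of_nonneg (fro_nonneg _),
    Real.norm_of_nonneg (fro_nonneg _)]

theorem trace_rotate (σ : I → ℂ) (S : Matrix I I ℂ) (l m : List Bool) :
    (W σ S (l ++ m)).trace = (W σ S (m ++ l)).trace := by
  rw [W_append, W_append, Matrix.trace_mul_comm]

theorem word_le (σ : I → ℂ) (hσ : ∀ x, star (σ x) = σ x) (hσ1 : ∀ x, ‖σ x‖ = 1)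
    (S : Matrix I I ℂ) (hS : Sᴴ = S) (k : ℕ) (hk : 1 ≤ k) (l : List Bool)
    (hl : l.length = 2 * k) :
    ‖(W σ S l).trace‖ ≤ ‖(W σ S (List.replicate (2 * k) false)).trace‖ := by
  classical
  set t : List Bool → ℝ := fun l => ‖(W σ S l).trace‖ with ht
  have hfin : {l : List Bool | l.length = 2 * k}.Finite := List.finite_length_eq Bool (2 * k)
  obtain ⟨l0, hl0, hmax⟩ := Set.exists_max_image _ t hfin ⟨l, hl⟩
  set M := t l0 with hM
  rcases eq_or_lt_of_le (show 0 ≤ M from norm_nonneg _) with hM0 | hM0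
  · have h1 : t l ≤ 0 := hM0 ▸ hmax l hl
    exact h1.trans (norm_nonneg _)
  have hfin' : {l : List Bool | l.length = 2 * k ∧ t l = M}.Finite :=
    hfin.subset fun x hx => hx.1
  obtain ⟨l1, hl1, hmin⟩ := Set.exists_min_image _ (fun l : List Bool => l.count true) hfin'
    ⟨l0, hl0, rfl⟩
  have hcount : l1.count true = 0 := by
    by_contra hne
    have hmem : true ∈ l1 := by
      by_contra hn
      exact hne (List.count_eq_zero.2 hn)
    obtain ⟨u, v, huv⟩ := List.append_of_mem hmem
    have hlen : (v ++ u).length = 2 * k - 1 := by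
      have h1 := hl1.1
      rw [huv] at h1
      simp only [List.length_append, List.length_cons] at h1 ⊢
      omega
    have hd : ((v ++ u).drop (k - 1)) ≠ [] := by
      intro h
      have h1 := congrArg List.length h
      rw [List.length_drop, hlen] at h1
      simp at h1
      omega
    obtain ⟨c, m, hcm⟩ := List.exists_cons_of_ne_nil hd
    set l' := (v ++ u).take (k - 1) with hl'
    have hsplit : v ++ u = l' ++ (c :: m) := by rw [← hcm, hl', List.take_append_drop]
    have hlen1 : l'.length = k - 1 := by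
      rw [hl', List.length_take, hlen]; omega
    have hlen2 : m.length = k - 1 := by
      have h1 := congrArg List.length hcm
      rw [List.length_drop, hlen, List.length_cons] at h1
      omega
    have htr : t l1 = ‖(W σ S ((true :: l') ++ (c :: m))).trace‖ := by
      rw [ht]
      simp only
      rw [huv, trace_rotate, List.cons_append, hsplit, List.cons_append]
    have hsq := word_sq_le σ hσ hσ1 S hS true c l' m
    rw [← htr, hl1.2] at hsq
    have hr1 : (refl l').length = 2 * k := by
      unfold refl; simp only [List.length_cons, List.length_append, List.length_reverse]; omega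
    have hr2 : (refl m).length = 2 * k := by
      unfold refl; simp only [List.length_cons, List.length_append, List.length_reverse]; omega
    have hb1 : t (refl l') ≤ M := hmax _ hr1
    have hb2 : t (refl m) ≤ M := hmax _ hr2
    have hn1 : 0 ≤ t (refl l') := norm_nonneg _
    have hn2 : 0 ≤ t (refl m) := norm_nonneg _
    have hsq' : M ^ 2 ≤ t (refl l') * t (refl m) := hsq
    have he1 : t (refl l') = M := by
      refine le_antisymm hb1 ?_
      by_contra hlt
      push Not at hlt
      nlinarith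
    have he2 : t (refl m) = M := by
      refine le_antisymm hb2 ?_
      by_contra hlt
      push Not at hlt
      nlinarith
    have hm1 := hmin (refl l') ⟨hr1, he1⟩
    have hm2 := hmin (refl m) ⟨hr2, he2⟩
    have hc1 : (refl l').count true = 2 * l'.count true := by
      unfold refl
      simp [List.count_append, List.count_cons, List.count_reverse]
      ring
    have hc2 : (refl m).count true = 2 * m.count true := by
      unfold refl
      simp [List.count_append, List.count_cons, List.count_reverse]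
      ring
    have hc : l1.count true = 1 + (v ++ u).count true := by
      rw [huv]
      simp [List.count_append, List.count_cons]
      ring
    have hc' : l'.count true + m.count true ≤ (v ++ u).count true := by
      rw [hsplit, List.count_append, List.count_cons]
      split <;> omega
    omega
  have hrep : l1 = List.replicate (2 * k) false := by
    rw [List.eq_replicate_iff]
    refine ⟨hl1.1, fun b hb => ?_⟩
    cases b
    · rfl
    · exact absurd hb (List.count_eq_zero.1 hcount)
  rw [← hrep]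
  exact (hmax l hl).trans (le_of_eq hl1.2.symm)

theorem W_replicate_false (σ : I → ℂ) (S : Matrix I I ℂ) (n : ℕ) :
    W σ S (List.replicate n false) = S ^ n := by
  unfold W
  rw [List.map_replicate, List.prod_replicate, Jb_false, one_mul]

theorem W_replicate_true (σ : I → ℂ) (S : Matrix I I ℂ) (n : ℕ) :
    W σ S (List.replicate n true) = (Matrix.diagonal σ * S) ^ n := by
  unfold W
  rw [List.map_replicate, List.prod_replicate, Jb_true]

theorem pow_mul_comm' (X Y : Matrix I I ℂ) (n : ℕ) : (X * Y) ^ n * X = X * (Y * X) ^ n := by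
  induction n with
  | zero => simp
  | succ n ih => rw [pow_succ', mul_assoc, ih, pow_succ']; simp only [mul_assoc]

theorem trace_pow_comm (X Y : Matrix I I ℂ) (n : ℕ) (hn : 1 ≤ n) :
    ((X * Y) ^ n).trace = ((Y * X) ^ n).trace := by
  obtain ⟨m, rfl⟩ : ∃ m, n = m + 1 := ⟨n - 1, by omega⟩
  rw [pow_succ, ← mul_assoc, pow_mul_comm', Matrix.trace_mul_comm, ← mul_assoc, ← pow_succ']

open scoped ComplexOrder in
/-- `tr (S^(2k)) - tr ((J S)^(2k))` is real and nonnegative -/
theorem trace_sub_nonneg (σ : I → ℂ) (hσ : ∀ x, star (σ x) = σ x) (hσ1 : ∀ x, ‖σ x‖ = 1)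
    (S : Matrix I I ℂ) (hS : Sᴴ = S) (k : ℕ) (hk : 1 ≤ k) :
    (0 : ℂ) ≤ (S ^ (2 * k)).trace - ((Matrix.diagonal σ * S) ^ (2 * k)).trace := by
  have h := word_le σ hσ hσ1 S hS k hk (List.replicate (2 * k) true) (by simp)
  rw [W_replicate_false, W_replicate_true] at h
  have h1 : (S ^ (2 * k)).trace = (fro (S ^ k) : ℂ) := by
    rw [← trace_conj_mul, Matrix.conjTranspose_pow, hS, ← pow_add, two_mul]
  have hDh : (Matrix.diagonal σ)ᴴ = Matrix.diagonal σ := Jb_herm σ hσ true
  have h2 : star ((Matrix.diagonal σ * S) ^ (2 * k)).trace =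
      ((Matrix.diagonal σ * S) ^ (2 * k)).trace := by
    rw [← Matrix.trace_conjTranspose, Matrix.conjTranspose_pow, Matrix.conjTranspose_mul, hS, hDh]
    exact trace_pow_comm _ _ _ (by omega)
  obtain ⟨r, hr⟩ : ∃ r : ℝ, ((Matrix.diagonal σ * S) ^ (2 * k)).trace = (r : ℂ) :=
    ⟨_, (Complex.conj_eq_iff_re.1 h2).symm⟩
  rw [h1, hr] at h ⊢
  rw [Complex.norm_real, Complex.norm_real, Real.norm_of_nonneg (fro_nonneg _)] at h
  have h3 : r ≤ fro (S ^ k) := (le_abs_self r).trans h
  rw [← Complex.ofReal_sub]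
  exact_mod_cast sub_nonneg.2 h3

end Run7.h923.ZT
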