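import Pool.Agent.Run7.h923.Sym

set_option autoImplicit false
open MvPolynomial Filter Topology

namespace Run7.h923

section general

variable {X : Type*}

theorem linearIndependent_eventually {ι : Type*} [Finite ι] (F : ι → MvPolynomial X ℂ)
    (hF : LinearIndependent ℂ F) (G : ℕ → ι → MvPolynomial X ℂ)
    (hG : ∀ i m, Tendsto (fun κ => coeff m (G κ i)) atTop (𝓝 (coeff m (F i)))) :
    ∀ᶠ κ in atTop, LinearIndependent ℂ (G κ) := by
  classical
  cases nonempty_fintype ι
  let s : Finset (X →₀ ℕ) := Finset.univ.biUnion (fun i => (F i).support)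
  let R : MvPolynomial X ℂ →ₗ[ℂ] (s → ℂ) := LinearMap.pi (fun m => lcoeff ℂ (m : X →₀ ℕ))
  have hR : ∀ p m, R p m = coeff (m : X →₀ ℕ) p := fun p m => rfl
  have hsub : ∀ p ∈ Submodule.span ℂ (Set.range F), ∀ m, m ∉ s → coeff m p = 0 := by
    intro p hp
    induction hp using Submodule.span_induction with
    | mem x hx =>
      obtain ⟨i, rfl⟩ := hx
      intro m hm
      by_contra hcon
      apply hm
      exact Finset.mem_biUnion.2 ⟨i, Finset.mem_univ _, mem_support_iff.2 hcon⟩
    | zero => intro m _; simp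
    | add x y _ _ hx hy =>
      intro m hm
      rw [coeff_add, hx m hm, hy m hm, add_zero]
    | smul a x _ hx =>
      intro m hm
      rw [coeff_smul, hx m hm, smul_zero]
  have h1 : LinearIndependent ℂ (fun i => R (F i)) := by
    apply hF.map
    rw [Submodule.disjoint_def]
    intro p hp hker
    ext m
    rw [coeff_zero]
    by_cases hm : m ∈ s
    · have := congrFun (LinearMap.mem_ker.1 hker) ⟨m, hm⟩
      exact this
    · exact hsub p hp m hm
  have h2 : Tendsto (fun κ => fun i => R (G κ i)) atTop (𝓝 (fun i => R (F i))) := by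
    rw [tendsto_pi_nhds]
    intro i
    rw [tendsto_pi_nhds]
    intro m
    exact hG i m
  have h3 := h2.eventually h1.eventually
  refine h3.mono (fun κ hκ => ?_)
  exact LinearIndependent.of_comp R hκ

theorem tendsto_pderiv (u : X) (f : MvPolynomial X ℂ) (g : ℕ → MvPolynomial X ℂ)
    (h : ∀ m, Tendsto (fun κ => coeff m (g κ)) atTop (𝓝 (coeff m f))) (m : X →₀ ℕ) :
    Tendsto (fun κ => coeff m (pderiv u (g κ))) atTop (𝓝 (coeff m (pderiv u f))) := by
  simp only [coeff_pderiv]
  exact (h _).mul_const _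

/-- iterated partial derivatives along a list of variables -/
noncomputable def dl (L : List X) (f : MvPolynomial X ℂ) : MvPolynomial X ℂ :=
  L.foldr (fun x p => pderiv x p) f

theorem dl_nil (f : MvPolynomial X ℂ) : dl [] f = f := rfl

theorem dl_cons (x : X) (L : List X) (f : MvPolynomial X ℂ) :
    dl (x :: L) f = pderiv x (dl L f) := rfl

theorem dl_zero (L : List X) : dl L (0 : MvPolynomial X ℂ) = 0 := by
  induction L with
  | nil => rfl
  | cons x L ih => rw [dl_cons, ih, map_zero]

theorem dl_sum {ι : Type*} (s : Finset ι) (L : List X) (f : ι → MvPolynomial X ℂ) :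
    dl L (∑ i ∈ s, f i) = ∑ i ∈ s, dl L (f i) := by
  induction L with
  | nil => rfl
  | cons x L ih => simp only [dl_cons, ih, map_sum]

/-- the space of partial derivatives of order `k` -/
noncomputable def Ders (k : ℕ) (f : MvPolynomial X ℂ) : Submodule ℂ (MvPolynomial X ℂ) :=
  Submodule.span ℂ {g | ∃ L : List X, L.length = k ∧ g = L.foldr (fun x p => pderiv x p) f}

theorem dl_mem_Ders (L : List X) (f : MvPolynomial X ℂ) : dl L f ∈ Ders L.length f :=
  Submodule.subset_span ⟨L, rfl, rfl⟩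

theorem pderiv_mem_Ders (x : X) (k : ℕ) (f g : MvPolynomial X ℂ) (hg : g ∈ Ders k f) :
    pderiv x g ∈ Ders (k + 1) f := by
  induction hg using Submodule.span_induction with
  | mem g hg =>
    obtain ⟨L, hL, rfl⟩ := hg
    exact Submodule.subset_span ⟨x :: L, by simp [hL], rfl⟩
  | zero => rw [map_zero]; exact Submodule.zero_mem _
  | add g h _ _ hg hh => rw [map_add]; exact Submodule.add_mem _ hg hh
  | smul a g _ hg => rw [Derivation.map_smul]; exact Submodule.smul_mem _ _ hg

theorem applyP_mem_Ders (L : List (X × X)) (f : MvPolynomial X ℂ) :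
    applyP L f ∈ Ders L.length f := by
  induction L with
  | nil => exact dl_mem_Ders [] f
  | cons t L ih =>
    rw [applyP_cons, applyP_D, D_apply, List.length_cons]
    exact Submodule.sub_mem _ (pderiv_mem_Ders _ _ _ _ ih) (pderiv_mem_Ders _ _ _ _ ih)

theorem tendsto_dl (L : List X) (f : MvPolynomial X ℂ) (g : ℕ → MvPolynomial X ℂ)
    (h : ∀ m, Tendsto (fun κ => coeff m (g κ)) atTop (𝓝 (coeff m f))) (m : X →₀ ℕ) :
    Tendsto (fun κ => coeff m (dl L (g κ))) atTop (𝓝 (coeff m (dl L f))) := by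
  induction L generalizing m with
  | nil => exact h m
  | cons t L ih =>
    simp only [dl_cons]
    exact tendsto_pderiv _ _ (fun κ => dl L (g κ)) ih m

theorem pderiv_homogeneous_one (ℓ : MvPolynomial X ℂ) (hℓ : ℓ.IsHomogeneous 1) (u : X) :
    ∃ c : ℂ, pderiv u ℓ = C c := by
  have h1 : (pderiv u ℓ).IsHomogeneous 0 := by simpa using hℓ.pderiv (i := u)
  have h2 : (pderiv u ℓ).totalDegree = 0 := by
    have := h1.totalDegree_le
    omega
  exact ⟨_, totalDegree_eq_zero_iff_eq_C.1 h2⟩

theorem dl_pow (ℓ : MvPolynomial X ℂ) (hℓ : ℓ.IsHomogeneous 1) (L : List X) (e : ℕ) :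
    ∃ c : ℂ, dl L (ℓ ^ e) = c • ℓ ^ (e - L.length) := by
  induction L with
  | nil => exact ⟨1, by simp [dl_nil]⟩
  | cons t L ih =>
    obtain ⟨a, ha⟩ := pderiv_homogeneous_one ℓ hℓ t
    obtain ⟨b, hb⟩ := ih
    refine ⟨b * ((e - L.length : ℕ) : ℂ) * a, ?_⟩
    rw [dl_cons, hb, Derivation.map_smul, pderiv_pow, ha, List.length_cons, Nat.sub_sub]
    simp only [smul_eq_C_mul, map_mul, map_natCast]
    ring

/-- the border rank bounds the dimension of the space of derivatives of a given order -/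
theorem border_bound [Finite X] (d r k : ℕ) (f : MvPolynomial X ℂ) (g : ℕ → MvPolynomial X ℂ)
    (hg : ∀ κ, ∃ ℓ : Fin r → MvPolynomial X ℂ, (∀ i, (ℓ i).IsHomogeneous 1) ∧
      g κ = ∑ i, ℓ i ^ d)
    (hlim : ∀ m, Tendsto (fun κ => coeff m (g κ)) atTop (𝓝 (coeff m f))) :
    Module.finrank ℂ (Ders k f) ≤ r := by
  classical
  cases nonempty_fintype X
  let v : List.Vector X k → MvPolynomial X ℂ := fun L => dl L.1 f
  obtain ⟨ι, a, hinj, hspan, hind⟩ := exists_linearIndependent' ℂ v
  have : Finite ι := Finite.of_injective a hinj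
  cases nonempty_fintype ι
  have hDers : Ders k f = Submodule.span ℂ (Set.range (v ∘ a)) := by
    rw [hspan]
    unfold Ders
    congr 1
    ext p
    constructor
    · rintro ⟨L, hL, rfl⟩
      exact ⟨⟨L, hL⟩, rfl⟩
    · rintro ⟨L, rfl⟩
      exact ⟨L.1, L.2, rfl⟩
  rw [hDers, finrank_span_eq_card hind]
  have h1 := linearIndependent_eventually (v ∘ a) hind
    (fun κ i => dl (a i).1 (g κ)) (fun i m => tendsto_dl (a i).1 f g hlim m)
  obtain ⟨κ, hκ⟩ := h1.exists
  obtain ⟨ℓ, hℓ, hgκ⟩ := hg κ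
  have h2 : Submodule.span ℂ (Set.range (fun i => dl (a i).1 (g κ))) ≤
      Submodule.span ℂ (Set.range (fun j : Fin r => ℓ j ^ (d - k))) := by
    rw [Submodule.span_le]
    rintro _ ⟨i, rfl⟩
    simp only [hgκ, dl_sum]
    refine Submodule.sum_mem _ (fun j _ => ?_)
    obtain ⟨c, hc⟩ := dl_pow (ℓ j) (hℓ j) (a i).1 d
    rw [hc, (a i).2]
    exact Submodule.smul_mem _ _ (Submodule.subset_span ⟨j, rfl⟩)
  have h3 := finrank_span_eq_card hκ
  have h4 : Module.finrank ℂ (Submodule.span ℂ (Set.range (fun j : Fin r => ℓ j ^ (d - k)))) ≤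
      Fintype.card (Fin r) := finrank_range_le_card _
  have : Module.Finite ℂ (Submodule.span ℂ (Set.range (fun j : Fin r => ℓ j ^ (d - k)))) :=
    FiniteDimensional.span_of_finite ℂ (Set.finite_range _)
  have h5 := Submodule.finrank_mono h2
  rw [← h3]
  rw [Fintype.card_fin] at h4
  exact h5.trans h4

theorem Ders_finite [Finite X] (k : ℕ) (f : MvPolynomial X ℂ) :
    Module.Finite ℂ (Ders k f) := by
  apply FiniteDimensional.span_of_finite
  have : {g | ∃ L : List X, L.length = k ∧ g = L.foldr (fun x p => pderiv x p) f} =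
      Set.range (fun L : List.Vector X k => dl L.1 f) := by
    ext p
    constructor
    · rintro ⟨L, hL, rfl⟩
      exact ⟨⟨L, hL⟩, rfl⟩
    · rintro ⟨L, rfl⟩
      exact ⟨L.1, L.2, rfl⟩
  rw [this]
  exact Set.finite_range _

end general

end Run7.h923
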