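import Pool.Agent.Run7.h923.Border

set_option autoImplicit false
open MvPolynomial Filter Topology

namespace Run7.h923

variable {X : Type*}

/-- semicontinuity of the dimension of the space of derivatives -/
theorem finrank_Ders_le_of_limit [Finite X] (k B : ℕ) (f : MvPolynomial X ℂ)
    (g : ℕ → MvPolynomial X ℂ)
    (hlim : ∀ m, Tendsto (fun κ => coeff m (g κ)) atTop (𝓝 (coeff m f)))
    (hB : ∀ κ, Module.finrank ℂ (Ders k (g κ)) ≤ B) :
    Module.finrank ℂ (Ders k f) ≤ B := by
  classical
  cases nonempty_fintype X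
  let v : List.Vector X k → MvPolynomial X ℂ := fun L => dl L.1 f
  obtain ⟨ι, a, hinj, hspan, hind⟩ := exists_linearIndependent' ℂ v
  have : Finite ι := Finite.of_injective a hinj
  cases nonempty_fintype ι
  have hDers : Ders k f = Submodule.span ℂ (Set.range (v ∘ a)) := by
    rw [hspan]
    unfold Ders
    congr 1
    ext p
    constructor
    · rintro ⟨L, hL, rfl⟩
      exact ⟨⟨L, hL⟩, rfl⟩
    · rintro ⟨L, rfl⟩
      exact ⟨L.1, L.2, rfl⟩
  rw [hDers, finrank_span_eq_card hind]
  have h1 := linearIndependent_eventually (v ∘ a) hind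
    (fun κ i => dl (a i).1 (g κ)) (fun i m => tendsto_dl (a i).1 f g hlim m)
  obtain ⟨κ, hκ⟩ := h1.exists
  have h2 : Submodule.span ℂ (Set.range (fun i => dl (a i).1 (g κ))) ≤ Ders k (g κ) := by
    rw [Submodule.span_le]
    rintro _ ⟨i, rfl⟩
    exact Submodule.subset_span ⟨(a i).1, (a i).2, rfl⟩
  have := Ders_finite k (g κ)
  have h5 := Submodule.finrank_mono h2
  rw [finrank_span_eq_card hκ] at h5
  exact h5.trans (hB κ)

theorem pderiv_prod {ι : Type*} [DecidableEq ι] (x : X) (S : Finset ι) (ℓ : ι → MvPolynomial X ℂ) :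
    pderiv x (∏ j ∈ S, ℓ j) = ∑ j ∈ S, pderiv x (ℓ j) * ∏ i ∈ S.erase j, ℓ i := by
  induction S using Finset.induction_on with
  | empty => simp
  | insert a S ha ih =>
    rw [Finset.prod_insert ha, Derivation.leibniz, ih, Finset.sum_insert ha,
      Finset.erase_insert ha, add_comm, smul_eq_mul, smul_eq_mul]
    congr 1
    · ring
    · rw [Finset.mul_sum]
      refine Finset.sum_congr rfl (fun j hj => ?_)
      have hja : a ≠ j := by
        rintro rfl
        exact ha hj
      have h1 : (insert a S).erase j = insert a (S.erase j) := Finset.erase_insert_of_ne hja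
      rw [h1, Finset.prod_insert (fun h => ha (Finset.mem_of_mem_erase h))]
      ring

theorem dl_prod {d : ℕ} (ℓ : Fin d → MvPolynomial X ℂ) (hℓ : ∀ j, (ℓ j).IsHomogeneous 1)
    (L : List X) : dl L (∏ j, ℓ j) ∈ Submodule.span ℂ (Set.range
      (fun T : {T // T ∈ Finset.powersetCard L.length (Finset.univ : Finset (Fin d))} =>
        ∏ j ∈ (T : Finset (Fin d))ᶜ, ℓ j)) := by
  classical
  induction L with
  | nil =>
    apply Submodule.subset_span
    refine ⟨⟨∅, by simp⟩, ?_⟩
    simp [dl_nil]
  | cons x L ih =>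
    rw [dl_cons]
    generalize dl L (∏ j, ℓ j) = G at ih ⊢
    induction ih using Submodule.span_induction with
    | zero => rw [map_zero]; exact Submodule.zero_mem _
    | add g h _ _ hg hh => rw [map_add]; exact Submodule.add_mem _ hg hh
    | smul a g _ hg => rw [Derivation.map_smul]; exact Submodule.smul_mem _ _ hg
    | mem g hg =>
      obtain ⟨⟨T, hT⟩, rfl⟩ := hg
      simp only
      rw [pderiv_prod]
      refine Submodule.sum_mem _ (fun j hj => ?_)
      obtain ⟨c, hc⟩ := pderiv_homogeneous_one (ℓ j) (hℓ j) x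
      rw [hc, ← smul_eq_C_mul]
      apply Submodule.smul_mem
      apply Submodule.subset_span
      rw [Finset.mem_powersetCard] at hT
      rw [Finset.mem_compl] at hj
      refine ⟨⟨insert j T, ?_⟩, ?_⟩
      · rw [Finset.mem_powersetCard]
        refine ⟨Finset.subset_univ _, ?_⟩
        rw [Finset.card_insert_of_notMem hj, hT.2, List.length_cons]
      · simp only
        rw [Finset.compl_insert]

theorem chow_bound [Finite X] (d r k : ℕ) (ℓ : Fin r → Fin d → MvPolynomial X ℂ)
    (hℓ : ∀ i j, (ℓ i j).IsHomogeneous 1) :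
    Module.finrank ℂ (Ders k (∑ i, ∏ j, ℓ i j)) ≤ r * d ^ k := by
  classical
  let v : Fin r × {T // T ∈ Finset.powersetCard k (Finset.univ : Finset (Fin d))} →
    MvPolynomial X ℂ := fun iT => ∏ j ∈ (iT.2 : Finset (Fin d))ᶜ, ℓ iT.1 j
  have h1 : Ders k (∑ i, ∏ j, ℓ i j) ≤ Submodule.span ℂ (Set.range v) := by
    unfold Ders
    rw [Submodule.span_le]
    rintro _ ⟨L, hL, rfl⟩
    have h2 : L.foldr (fun x p => pderiv x p) (∑ i, ∏ j, ℓ i j) =
        ∑ i, dl L (∏ j, ℓ i j) := dl_sum _ _ _
    rw [h2]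
    refine Submodule.sum_mem _ (fun i _ => ?_)
    have h3 := dl_prod (ℓ i) (hℓ i) L
    subst hL
    refine Submodule.span_mono ?_ h3
    rintro _ ⟨T, rfl⟩
    exact ⟨(i, T), rfl⟩
  have : Module.Finite ℂ (Submodule.span ℂ (Set.range v)) :=
    FiniteDimensional.span_of_finite ℂ (Set.finite_range _)
  refine (Submodule.finrank_mono h1).trans ((finrank_range_le_card v).trans ?_)
  rw [Fintype.card_prod, Fintype.card_fin, Fintype.card_coe, Finset.card_powersetCard,
    Finset.card_univ, Fintype.card_fin]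
  exact Nat.mul_le_mul_left _ (Nat.choose_le_pow d k)

end Run7.h923
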