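import Pool.Agent.Run7.h923.Pull
import Pool.Agent.Run7.h923.Chow

set_option autoImplicit false
open MvPolynomial Filter Topology

namespace Run7.h923

/-- polynomially bounded functions -/
def PB (u : ℕ → ℕ) : Prop := ∃ C s : ℕ, ∀ n, 1 ≤ n → u n ≤ C * n ^ s

theorem PB.const (c : ℕ) : PB (fun _ => c) := ⟨c, 0, fun n _ => by simp⟩

theorem PB.id' : PB (fun n => n) := ⟨1, 1, fun n _ => by simp⟩

theorem PB.add {u v : ℕ → ℕ} (hu : PB u) (hv : PB v) : PB (fun n => u n + v n) := by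
  obtain ⟨C, s, h⟩ := hu
  obtain ⟨C', s', h'⟩ := hv
  refine ⟨C + C', s + s', fun n hn => ?_⟩
  have h1 : n ^ s ≤ n ^ (s + s') := Nat.pow_le_pow_right hn (by omega)
  have h2 : n ^ s' ≤ n ^ (s + s') := Nat.pow_le_pow_right hn (by omega)
  calc u n + v n ≤ C * n ^ s + C' * n ^ s' := add_le_add (h n hn) (h' n hn)
    _ ≤ C * n ^ (s + s') + C' * n ^ (s + s') :=
        add_le_add (Nat.mul_le_mul_left _ h1) (Nat.mul_le_mul_left _ h2)
    _ = (C + C') * n ^ (s + s') := by ring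

theorem PB.mul {u v : ℕ → ℕ} (hu : PB u) (hv : PB v) : PB (fun n => u n * v n) := by
  obtain ⟨C, s, h⟩ := hu
  obtain ⟨C', s', h'⟩ := hv
  refine ⟨C * C', s + s', fun n hn => ?_⟩
  calc u n * v n ≤ (C * n ^ s) * (C' * n ^ s') := Nat.mul_le_mul (h n hn) (h' n hn)
    _ = C * C' * n ^ (s + s') := by ring

theorem PB.pow {u : ℕ → ℕ} (hu : PB u) (k : ℕ) : PB (fun n => u n ^ k) := by
  induction k with
  | zero => simpa using PB.const 1
  | succ k ih =>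
    have := ih.mul hu
    simpa [pow_succ] using this

theorem PB_bnd (b q K : ℕ) (d : ℕ → ℕ) (hd : PB d) :
    PB (fun n => bnd (fun u => b * u ^ q) (d n) q n
      ((d n + 2) * (b * n ^ q * (d n + 2))) K 0) := by
  unfold bnd
  apply PB.mul
  · exact (hd.add (PB.const 1)).pow _
  · apply PB.pow
    apply (PB.const 1).add
    apply PB.id'.mul
    apply (hd.add (PB.const 2)).mul
    exact ((PB.const b).mul (PB.id'.pow q)).mul (hd.add (PB.const 2))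

/-- the main asymptotic statement -/
theorem asym (q b : ℕ) (N d : ℕ → ℕ) (f : (n : ℕ) → MvPolynomial (Fin (N n)) ℂ)
    (ρ : (n : ℕ) → Equiv.Perm (Fin n) →* Equiv.Perm (Fin (N n)))
    (hd : ∃ C s : ℕ, ∀ n, d n ≤ C * (n + 1) ^ s) (hd1 : ∀ n, 1 ≤ d n)
    (hf : ∀ n, (f n).IsHomogeneous (d n))
    (horb : ∀ n, ∃ R : Finset (Fin (N n)), R.card ≤ b ∧ ∀ x, ∃ y ∈ R, ∃ σ, ρ n σ y = x)
    (hsupp : ∀ n x, ∃ T : Finset (Fin n), T.card ≤ q ∧
      ∀ σ : Equiv.Perm (Fin n), (∀ i ∈ T, σ i = i) → ρ n σ x = x)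
    (hsym : ∀ n σ, rename (ρ n σ) (f n) = f n)
    (h3 : ∃ k : ℕ, Tendsto (fun n : ℕ => (Module.finrank ℂ (Ders k (f n)) : ℝ) / (n : ℝ) ^ k)
      atTop (𝓝 0)) :
    ∃ C s : ℕ, ∀ᶠ n in atTop, ∃ r : ℕ, r ≤ C * n ^ s ∧
      ∃ ℓ : Fin r → MvPolynomial (Fin (N n)) ℂ,
        (∀ i, (ℓ i).IsHomogeneous 1) ∧ f n = ∑ i, ℓ i ^ d n := by
  classical
  obtain ⟨k, hk⟩ := h3
  have hdPB : PB d := by
    obtain ⟨C, s, h⟩ := hd
    have h1 : PB (fun n => C * (n + 1) ^ s) :=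
      (PB.const C).mul ((PB.id'.add (PB.const 1)).pow s)
    obtain ⟨C', s', h'⟩ := h1
    exact ⟨C', s', fun n hn => (h n).trans (h' n hn)⟩
  obtain ⟨C, s, hCs⟩ := PB_bnd b q ((k - 1) * q + 1) d hdPB
  refine ⟨C, s, ?_⟩
  have hc : (0 : ℝ) < ((1 : ℝ) / (8 * (k + 1))) ^ k := by positivity
  have h1 := hk.eventually (gt_mem_nhds hc)
  filter_upwards [h1, eventually_ge_atTop (2 * (k * q) + 8 * (k + 1))] with n hn1 hn2
  have hn0 : 1 ≤ n := by omega
  have : Nonempty (Fin n) := ⟨⟨0, hn0⟩⟩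
  let M := n / (4 * (k + 1))
  have hM1 : M * (4 * (k + 1)) ≤ n := Nat.div_mul_le_self _ _
  have hM2 : n < (M + 1) * (4 * (k + 1)) := by
    have := Nat.lt_mul_div_succ n (show 0 < 4 * (k + 1) by omega)
    calc n < (4 * (k + 1)) * (n / (4 * (k + 1)) + 1) := this
      _ = (M + 1) * (4 * (k + 1)) := by rw [mul_comm]
  have hM : k * q + k * M * 2 ≤ Fintype.card (Fin n) := by
    rw [Fintype.card_fin]
    have h4 : k * M * 2 * 2 ≤ M * (4 * (k + 1)) := by nlinarith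
    omega
  have hMn : n ≤ M * (8 * (k + 1)) := by nlinarith
  have hdim : Module.finrank ℂ (Ders k (f n)) < M ^ k := by
    have h5 : (Module.finrank ℂ (Ders k (f n)) : ℝ) < ((1 : ℝ) / (8 * (k + 1))) ^ k * (n : ℝ) ^ k := by
      rwa [div_lt_iff₀ (by positivity)] at hn1
    have h6 : ((1 : ℝ) / (8 * (k + 1))) ^ k * (n : ℝ) ^ k ≤ (M : ℝ) ^ k := by
      rw [← mul_pow]
      apply pow_le_pow_left₀ (by positivity)
      rw [one_div, inv_mul_le_iff₀ (by positivity)]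
      have : (n : ℝ) ≤ ((M * (8 * (k + 1)) : ℕ) : ℝ) := by exact_mod_cast hMn
      calc (n : ℝ) ≤ ((M * (8 * (k + 1)) : ℕ) : ℝ) := this
        _ = 8 * ((k : ℝ) + 1) * (M : ℝ) := by push_cast; ring
    have h7 := lt_of_lt_of_le h5 h6
    exact_mod_cast h7
  have hWR := main_general (ρ n) b q (horb n) (hsupp n) (d n) k M hM (f n) (hf n) (hsym n) hdim
  rw [Fintype.card_fin] at hWR
  obtain ⟨ℓ, hℓ, hfℓ⟩ := hWR.toFin (by have := hd1 n; omega)
  exact ⟨_, hCs n hn0, ℓ, hℓ, hfℓ⟩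

theorem ratio_of_bound (N : ℕ → ℕ) (f : (n : ℕ) → MvPolynomial (Fin (N n)) ℂ) (C k : ℕ)
    (h : ∀ᶠ n in atTop, Module.finrank ℂ (Ders (k + 1) (f n)) ≤ C * n ^ k) :
    Tendsto (fun n : ℕ => (Module.finrank ℂ (Ders (k + 1) (f n)) : ℝ) / (n : ℝ) ^ (k + 1))
      atTop (𝓝 0) := by
  have h1 : Tendsto (fun n : ℕ => (C : ℝ) / (n : ℝ)) atTop (𝓝 0) :=
    tendsto_const_div_atTop_nhds_zero_nat (C : ℝ)
  refine tendsto_of_tendsto_of_tendsto_of_le_of_le' tendsto_const_nhds h1 ?_ ?_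
  · exact Eventually.of_forall (fun n => by positivity)
  · filter_upwards [h, eventually_ge_atTop 1] with n hn hn1
    have hn' : (0 : ℝ) < n := by exact_mod_cast hn1
    rw [div_le_div_iff₀ (by positivity) hn']
    have : (Module.finrank ℂ (Ders (k + 1) (f n)) : ℝ) ≤ C * (n : ℝ) ^ k := by exact_mod_cast hn
    calc (Module.finrank ℂ (Ders (k + 1) (f n)) : ℝ) * n ≤ C * (n : ℝ) ^ k * n := by gcongr
      _ = C * (n : ℝ) ^ (k + 1) := by ring

theorem waring_bound {X : Type*} [Finite X] (d r k : ℕ) (ℓ : Fin r → MvPolynomial X ℂ)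
    (hℓ : ∀ i, (ℓ i).IsHomogeneous 1) :
    Module.finrank ℂ (Ders k (∑ i, ℓ i ^ d)) ≤ r := by
  have h1 : Ders k (∑ i, ℓ i ^ d) ≤
      Submodule.span ℂ (Set.range (fun j : Fin r => ℓ j ^ (d - k))) := by
    unfold Ders
    rw [Submodule.span_le]
    rintro _ ⟨L, hL, rfl⟩
    have h2 : L.foldr (fun x p => pderiv x p) (∑ i, ℓ i ^ d) = ∑ i, dl L (ℓ i ^ d) := dl_sum _ _ _
    rw [h2]
    refine Submodule.sum_mem _ (fun j _ => ?_)
    obtain ⟨c, hc⟩ := dl_pow (ℓ j) (hℓ j) L d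
    rw [hc, hL]
    exact Submodule.smul_mem _ _ (Submodule.subset_span ⟨j, rfl⟩)
  have : Module.Finite ℂ (Submodule.span ℂ (Set.range (fun j : Fin r => ℓ j ^ (d - k)))) :=
    FiniteDimensional.span_of_finite ℂ (Set.finite_range _)
  have h4 : Module.finrank ℂ (Submodule.span ℂ (Set.range (fun j : Fin r => ℓ j ^ (d - k)))) ≤
      Fintype.card (Fin r) := finrank_range_le_card _
  rw [Fintype.card_fin] at h4
  exact (Submodule.finrank_mono h1).trans h4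

end Run7.h923
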