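import Pool.Agent.Run7.h923.Sym

set_option autoImplicit false
open MvPolynomial

namespace Run7.h923

variable {V X : Type*} [DecidableEq V] [MulAction (Equiv.Perm V) X] {q : ℕ}

/-- the action of a permutation on polynomials -/
noncomputable def act (X : Type*) [MulAction (Equiv.Perm V) X] (σ : Equiv.Perm V) :
    MvPolynomial X ℂ →ₐ[ℂ] MvPolynomial X ℂ :=
  rename (fun x => σ • x)

omit [DecidableEq V] in
theorem act_mul (σ τ : Equiv.Perm V) (f : MvPolynomial X ℂ) :
    act X (σ * τ) f = act X σ (act X τ f) := by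
  unfold act
  rw [rename_rename]
  congr 2
  funext x
  exact mul_smul σ τ x

omit [DecidableEq V] in
theorem act_injective (σ : Equiv.Perm V) : Function.Injective (act X σ) :=
  rename_injective _ (MulAction.injective σ)

omit [DecidableEq V] in
theorem act_applyP (σ : Equiv.Perm V) (L : List (X × X)) (f : MvPolynomial X ℂ)
    (hf : act X σ f = f) :
    act X σ (applyP L f) = applyP (L.map (fun t => (σ • t.1, σ • t.2))) f := by
  conv_rhs => rw [← hf]
  exact (applyP_rename (MulAction.injective σ) L f).symm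

theorem pr_fixed (S : Sup V X q) (t : X × V × V) (ha : t.2.1 ∈ S.supp t.1) (σ : Equiv.Perm V)
    (hσ : ∀ v ∈ insert t.2.2 (S.supp t.1), σ v = v) :
    (σ • (pr t).1, σ • (pr t).2) = pr t := by
  unfold pr
  have h1 : σ • t.1 = t.1 := S.fix σ t.1 (fun v hv => hσ v (Finset.mem_insert_of_mem hv))
  have h2 : σ • (Equiv.swap t.2.1 t.2.2 • t.1) = Equiv.swap t.2.1 t.2.2 • t.1 := by
    apply S.fix
    intro v hv
    rw [S.mem_swap] at hv
    apply hσ
    by_cases h3 : v = t.2.2
    · rw [h3]; exact Finset.mem_insert_self _ _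
    · by_cases h4 : v = t.2.1
      · rw [h4]; exact Finset.mem_insert_of_mem ha
      · rw [Equiv.swap_apply_of_ne_of_ne h4 h3] at hv
        exact Finset.mem_insert_of_mem hv
  simp only [h1, h2]

theorem act_fixed (S : Sup V X q) (C : List (X × V × V))
    (hC : ∀ t ∈ C, t.2.1 ∈ S.supp t.1 ∧ t.2.2 ∉ S.supp t.1) (σ : Equiv.Perm V)
    (hσ : ∀ t ∈ C, ∀ v ∈ insert t.2.2 (S.supp t.1), σ v = v) (f : MvPolynomial X ℂ)
    (hf : act X σ f = f) :
    act X σ (applyP (C.map pr) f) = applyP (C.map pr) f := by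
  rw [act_applyP _ _ _ hf]
  congr 2
  rw [List.map_map]
  apply List.map_congr_left
  intro t ht
  exact pr_fixed S t (hC t ht).1 σ (hσ t ht)

theorem act_sign (S : Sup V X q) (C : List (X × V × V)) (hind : C.Pairwise (Ind S))
    (hC : ∀ t ∈ C, t.2.1 ∈ S.supp t.1 ∧ t.2.2 ∉ S.supp t.1) (t : X × V × V) (ht : t ∈ C)
    (f : MvPolynomial X ℂ) (hf : act X (Equiv.swap t.2.1 t.2.2) f = f) :
    act X (Equiv.swap t.2.1 t.2.2) (applyP (C.map pr) f) = - applyP (C.map pr) f := by
  obtain ⟨C1, C2, rfl⟩ := List.append_of_mem ht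
  rw [List.pairwise_append] at hind
  obtain ⟨_, h2, h3⟩ := hind
  rw [List.pairwise_cons] at h2
  have hother : ∀ s, (s ∈ C1 ∨ s ∈ C2) → Ind S s t := by
    intro s hs
    rcases hs with hs | hs
    · exact h3 s hs t (by simp)
    · exact (h2.1 s hs).symm
  have hfix : ∀ s, (s ∈ C1 ∨ s ∈ C2) →
      (Equiv.swap t.2.1 t.2.2 • (pr s).1, Equiv.swap t.2.1 t.2.2 • (pr s).2) = pr s := by
    intro s hs
    have hsC : s ∈ C1 ++ t :: C2 := by
      rcases hs with hs | hs <;> simp [hs]
    have hI := hother s hs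
    apply pr_fixed S s (hC s hsC).1
    intro v hv
    obtain ⟨i1, i2, i3, i4, i5⟩ := hI
    rw [Finset.mem_insert] at hv
    apply Equiv.swap_apply_of_ne_of_ne
    · rintro rfl
      rcases hv with hv | hv
      · exact i2 (hv ▸ (hC t ht).1)
      · exact i3 hv
    · rintro rfl
      rcases hv with hv | hv
      · exact i5 hv.symm
      · exact i4 hv
  rw [act_applyP _ _ _ hf]
  have h4 : ((C1 ++ t :: C2).map pr).map
      (fun s => (Equiv.swap t.2.1 t.2.2 • s.1, Equiv.swap t.2.1 t.2.2 • s.2)) =
      C1.map pr ++ ((pr t).2, (pr t).1) :: C2.map pr := by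
    rw [List.map_append, List.map_cons, List.map_append, List.map_cons, List.map_map,
      List.map_map]
    congr 1
    · apply List.map_congr_left
      intro s hs
      exact hfix s (Or.inl hs)
    · congr 1
      · unfold pr
        simp only [smul_smul, Equiv.swap_mul_self, one_smul]
      · apply List.map_congr_left
        intro s hs
        exact hfix s (Or.inr hs)
  rw [h4, applyP_swap]
  congr 2
  rw [List.map_append, List.map_cons]

theorem exists_perm {I V : Type*} [Fintype V] [DecidableEq V] (f g : I → V)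
    (hf : Function.Injective f) (hg : Function.Injective g) :
    ∃ σ : Equiv.Perm V, ∀ i, σ (f i) = g i := by
  classical
  let e : {x // x ∈ Set.range f} ≃ {x // x ∈ Set.range g} :=
    (Equiv.ofInjective f hf).symm.trans (Equiv.ofInjective g hg)
  refine ⟨e.extendSubtype, fun i => ?_⟩
  rw [e.extendSubtype_apply_of_mem _ ⟨i, rfl⟩]
  have : (⟨f i, ⟨i, rfl⟩⟩ : {x // x ∈ Set.range f}) = Equiv.ofInjective f hf i := rfl
  simp only [e, Equiv.trans_apply, this, Equiv.symm_apply_apply]
  rfl

theorem lin_indep [Fintype V] (S : Sup V X q) (C : List (X × V × V)) (hind : C.Pairwise (Ind S))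
    (hC : ∀ t ∈ C, t.2.1 ∈ S.supp t.1 ∧ t.2.2 ∉ S.supp t.1)
    (M : ℕ) (hM : C.length * q + C.length * M * 2 ≤ Fintype.card V)
    (f : MvPolynomial X ℂ) (hf : ∀ σ : Equiv.Perm V, act X σ f = f) (hne : applyP (C.map pr) f ≠ 0) :
    ∃ σ : (Fin C.length → Fin M) → Equiv.Perm V,
      LinearIndependent ℂ (fun h => act X (σ h) (applyP (C.map pr) f)) := by
  classical
  set g := applyP (C.map pr) f with hg
  let t : Fin C.length → X × V × V := C.get
  have htC : ∀ j, t j ∈ C := fun j => List.get_mem C j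
  have hI : ∀ i j, i ≠ j → Ind S (t i) (t j) := by
    intro i j hij
    rw [List.pairwise_iff_get] at hind
    rcases lt_or_gt_of_ne hij with h | h
    · exact hind i j h
    · exact (hind j i h).symm
  let V0 : Finset V := uni S C \ Finset.univ.image (fun j => (t j).2.1)
  have hV0 : V0.card ≤ C.length * q :=
    (Finset.card_le_card Finset.sdiff_subset).trans (card_uni_le S C)
  have hcard : Fintype.card (Fin C.length × Fin M × Bool) ≤ Fintype.card {v // v ∉ V0} := by
    rw [Fintype.card_prod, Fintype.card_prod, Fintype.card_fin, Fintype.card_fin,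
      Fintype.card_bool, Fintype.card_subtype_compl, Fintype.card_coe]
    have : C.length * (M * 2) = C.length * M * 2 := by ring
    omega
  obtain ⟨e⟩ := Function.Embedding.nonempty_of_card_le hcard
  let ι0 : V0 ⊕ (Fin C.length × Bool) → V := Sum.elim (fun v => (v : V))
    (fun jb => if jb.2 then (t jb.1).2.2 else (t jb.1).2.1)
  let ι1 : (Fin C.length → Fin M) → V0 ⊕ (Fin C.length × Bool) → V := fun h =>
    Sum.elim (fun v => (v : V)) (fun jb => (e (jb.1, h jb.1, jb.2) : V))
  have hpuni : ∀ j, (t j).2.2 ∉ uni S C := by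
    intro j hj
    obtain ⟨s, hs, hps⟩ := mem_uni.1 hj
    obtain ⟨i, rfl⟩ := List.get_of_mem hs
    by_cases hij : i = j
    · subst hij
      exact (hC _ (htC i)).2 hps
    · exact (hI j i (Ne.symm hij)).2.1 hps
  have hauni : ∀ j, (t j).2.1 ∈ uni S C := fun j => mem_uni.2 ⟨t j, htC j, (hC _ (htC j)).1⟩
  have hainj : ∀ i j, (t i).2.1 = (t j).2.1 → i = j := by
    intro i j hij
    by_contra hne
    apply (hI i j hne).1
    rw [hij]
    exact (hC _ (htC j)).1
  have hpinj : ∀ i j, (t i).2.2 = (t j).2.2 → i = j := by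
    intro i j hij
    by_contra hne
    exact (hI i j hne).2.2.2.2 hij
  have hap : ∀ i j, (t i).2.1 ≠ (t j).2.2 := by
    intro i j hij
    apply hpuni j
    rw [← hij]
    exact hauni i
  have hι0 : Function.Injective ι0 := by
    intro a b hab
    rcases a with ⟨v, hv⟩ | ⟨i, b1⟩ <;> rcases b with ⟨w, hw⟩ | ⟨j, b2⟩
    · simpa [ι0] using hab
    · exfalso
      simp only [ι0, Sum.elim_inl, Sum.elim_inr] at hab
      rw [Finset.mem_sdiff] at hv
      cases b2
      · simp only [Bool.false_eq_true, if_false] at hab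
        exact hv.2 (Finset.mem_image.2 ⟨j, Finset.mem_univ _, hab.symm⟩)
      · simp only [if_true] at hab
        exact hpuni j (hab ▸ hv.1)
    · exfalso
      simp only [ι0, Sum.elim_inl, Sum.elim_inr] at hab
      rw [Finset.mem_sdiff] at hw
      cases b1
      · simp only [Bool.false_eq_true, if_false] at hab
        exact hw.2 (Finset.mem_image.2 ⟨i, Finset.mem_univ _, hab⟩)
      · simp only [if_true] at hab
        exact hpuni i (hab.symm ▸ hw.1)
    · simp only [ι0, Sum.elim_inr] at hab
      cases b1 <;> cases b2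
      · simp only [Bool.false_eq_true, if_false] at hab
        rw [hainj i j hab]
      · simp only [Bool.false_eq_true, if_false, if_true] at hab
        exact absurd hab (hap i j)
      · simp only [Bool.false_eq_true, if_false, if_true] at hab
        exact absurd hab.symm (hap j i)
      · simp only [if_true] at hab
        rw [hpinj i j hab]
  have hι1 : ∀ h, Function.Injective (ι1 h) := by
    intro h a b hab
    rcases a with ⟨v, hv⟩ | ⟨i, b1⟩ <;> rcases b with ⟨w, hw⟩ | ⟨j, b2⟩
    · simpa [ι1] using hab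
    · exfalso
      simp only [ι1, Sum.elim_inl, Sum.elim_inr] at hab
      exact (e (j, h j, b2)).2 (hab ▸ hv)
    · exfalso
      simp only [ι1, Sum.elim_inl, Sum.elim_inr] at hab
      exact (e (i, h i, b1)).2 (hab.symm ▸ hw)
    · simp only [ι1, Sum.elim_inr] at hab
      have := e.injective (Subtype.ext hab)
      simp only [Prod.mk.injEq] at this
      rw [this.1, this.2.2]
  have hσ : ∀ h, ∃ σ : Equiv.Perm V, ∀ i, σ (ι0 i) = ι1 h i := fun h =>
    exists_perm ι0 (ι1 h) hι0 (hι1 h)
  choose σ hσ using hσ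
  refine ⟨σ, ?_⟩
  have hσa : ∀ h j, σ h (t j).2.1 = e (j, h j, false) := by
    intro h j
    simpa [ι0, ι1] using hσ h (Sum.inr (j, false))
  have hσp : ∀ h j, σ h (t j).2.2 = e (j, h j, true) := by
    intro h j
    simpa [ι0, ι1] using hσ h (Sum.inr (j, true))
  -- the transpositions
  have hact : ∀ h j m, act X (Equiv.swap ((e (j, m, false) : V)) (e (j, m, true))) (act X (σ h) g) =
      (if h j = m then (-1 : ℂ) else 1) • act X (σ h) g := by
    intro h j m
    have hinv1 : ∀ x, (σ h)⁻¹ (σ h x) = x := fun x => (σ h).symm_apply_apply x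
    have hinv2 : ∀ x, σ h ((σ h)⁻¹ x) = x := fun x => (σ h).apply_symm_apply x
    rw [← act_mul, Equiv.swap_mul_eq_mul_swap, act_mul]
    by_cases hjm : h j = m
    · rw [if_pos hjm]
      subst hjm
      rw [← hσa h j, ← hσp h j, hinv1, hinv1]
      rw [hg, act_sign S C hind hC (t j) (htC j) f (hf _), map_neg]
      simp
    · rw [if_neg hjm, one_smul]
      congr 1
      apply act_fixed S C hC _ _ f (hf _)
      intro s hs v hv
      obtain ⟨i, rfl⟩ := List.get_of_mem hs
      have hw : ∃ w, ι0 w = v := by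
        rw [Finset.mem_insert] at hv
        rcases hv with rfl | hv
        · exact ⟨Sum.inr (i, true), by simp [ι0, t]⟩
        · by_cases h1 : v ∈ Finset.univ.image (fun j => (t j).2.1)
          · obtain ⟨l, _, rfl⟩ := Finset.mem_image.1 h1
            exact ⟨Sum.inr (l, false), by simp [ι0]⟩
          · exact ⟨Sum.inl ⟨v, Finset.mem_sdiff.2 ⟨mem_uni.2 ⟨_, htC i, hv⟩, h1⟩⟩, rfl⟩
      obtain ⟨w, rfl⟩ := hw
      have hne : ∀ b, σ h (ι0 w) ≠ e (j, m, b) := by
        intro b hb
        rw [hσ h w] at hb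
        rcases w with ⟨w, hw⟩ | ⟨l, b'⟩
        · simp only [ι1, Sum.elim_inl] at hb
          exact (e (j, m, b)).2 (hb ▸ hw)
        · simp only [ι1, Sum.elim_inr] at hb
          have := e.injective (Subtype.ext hb)
          simp only [Prod.mk.injEq] at this
          obtain ⟨h1, h2, _⟩ := this
          subst h1
          exact hjm h2
      apply Equiv.swap_apply_of_ne_of_ne
      · intro h1
        apply hne false
        rw [h1, hinv2]
      · intro h1
        apply hne true
        rw [h1, hinv2]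
  let T : Module.End ℂ (MvPolynomial X ℂ) := ∑ j : Fin C.length, ∑ m : Fin M,
    (((m : ℕ) * M ^ (j : ℕ) : ℕ) : ℂ) •
      (act X (Equiv.swap ((e (j, m, false) : V)) (e (j, m, true)))).toLinearMap
  let μ : (Fin C.length → Fin M) → ℂ := fun h => ∑ j : Fin C.length, ∑ m : Fin M,
    (((m : ℕ) * M ^ (j : ℕ) : ℕ) : ℂ) * (if h j = m then (-1 : ℂ) else 1)
  have hμ : ∀ h, μ h = (∑ j : Fin C.length, ∑ m : Fin M, (((m : ℕ) * M ^ (j : ℕ) : ℕ) : ℂ)) -
      2 * ((finFunctionFinEquiv h : ℕ) : ℂ) := by
    intro h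
    rw [finFunctionFinEquiv_apply]
    simp only [μ]
    push_cast
    rw [Finset.mul_sum, ← Finset.sum_sub_distrib]
    refine Finset.sum_congr rfl (fun j _ => ?_)
    have h1 : ∀ m : Fin M, ((m : ℕ) : ℂ) * (M : ℂ) ^ (j : ℕ) * (if h j = m then (-1 : ℂ) else 1) =
        ((m : ℕ) : ℂ) * (M : ℂ) ^ (j : ℕ) -
          (if h j = m then 2 * (((m : ℕ) : ℂ) * (M : ℂ) ^ (j : ℕ)) else 0) := by
      intro m
      split_ifs <;> ring
    rw [Finset.sum_congr rfl (fun m _ => h1 m), Finset.sum_sub_distrib, Finset.sum_ite_eq]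
    simp
  have hμinj : Function.Injective μ := by
    intro h h' hh
    rw [hμ, hμ] at hh
    have h1 : ((finFunctionFinEquiv h : ℕ) : ℂ) = ((finFunctionFinEquiv h' : ℕ) : ℂ) := by
      have := sub_right_inj.1 hh
      exact mul_left_cancel₀ two_ne_zero this
    have h2 : (finFunctionFinEquiv h : ℕ) = (finFunctionFinEquiv h' : ℕ) := by exact_mod_cast h1
    exact finFunctionFinEquiv.injective (Fin.ext h2)
  refine Module.End.eigenvectors_linearIndependent' T μ hμinj _ (fun h => ?_)
  refine ⟨?_, ?_⟩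
  · rw [Module.End.mem_eigenspace_iff]
    simp only [T, μ, LinearMap.sum_apply, LinearMap.smul_apply, AlgHom.toLinearMap_apply, hact,
      Finset.sum_smul, smul_smul]
  · intro h0
    apply hne
    apply act_injective (σ h)
    rw [h0, map_zero]

end Run7.h923
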