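import Pool.Agent.Run7.h923.Peel

set_option autoImplicit false
open MvPolynomial

namespace Run7.h923

/-- an equivariant support function with supports of size `≤ q` -/
structure Sup (V X : Type*) [DecidableEq V] [MulAction (Equiv.Perm V) X] (q : ℕ) where
  supp : X → Finset V
  card_le : ∀ x, (supp x).card ≤ q
  fix : ∀ (σ : Equiv.Perm V) (x : X), (∀ v ∈ supp x, σ v = v) → σ • x = x
  equiv : ∀ (σ : Equiv.Perm V) (x : X), supp (σ • x) = (supp x).image σ

variable {V X : Type*} [DecidableEq V] [MulAction (Equiv.Perm V) X] {q : ℕ}

def Kill (S : Sup V X q) : ℕ → Finset V → MvPolynomial X ℂ → Prop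
  | 0, _, f => f = 0
  | K + 1, W, f => ∀ (x : X) (a p : V), a ∈ W → p ∈ W → a ∈ S.supp x → p ∉ S.supp x →
      Kill S K (W \ insert p (S.supp x)) (D x (Equiv.swap a p • x) f)

theorem Kill_zero (S : Sup V X q) (K : ℕ) (W : Finset V) : Kill S K W 0 := by
  induction K generalizing W with
  | zero => rfl
  | succ K ih =>
    intro x a p _ _ _ _
    rw [map_zero]
    exact ih _

theorem Sup.mem_swap (S : Sup V X q) {x : X} {a p v : V} :
    v ∈ S.supp (Equiv.swap a p • x) ↔ Equiv.swap a p v ∈ S.supp x := by
  rw [S.equiv, Finset.mem_image]
  constructor
  · rintro ⟨u, hu, rfl⟩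
    simpa using hu
  · intro h
    exact ⟨_, h, by simp⟩

/-- restriction: variables touching `a` are set to zero -/
noncomputable def res (S : Sup V X q) (a : V) : MvPolynomial X ℂ →ₐ[ℂ] MvPolynomial X ℂ :=
  aeval (fun y => if a ∈ S.supp y then 0 else MvPolynomial.X y)

theorem pderiv_res_of_mem (S : Sup V X q) {a : V} {x : X} (hx : a ∈ S.supp x)
    (f : MvPolynomial X ℂ) : pderiv x (res S a f) = 0 := by
  classical
  unfold res
  induction f using MvPolynomial.induction_on with
  | C c => simp
  | add p q hp hq => rw [map_add, map_add, hp, hq, add_zero]
  | mul_X p y hp =>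
    rw [map_mul, aeval_X, Derivation.leibniz, hp]
    split_ifs with hy
    · simp
    · rw [pderiv_X_of_ne]
      · simp
      · rintro rfl
        exact hy hx

theorem pderiv_aeval_ite {X : Type*} (P : X → Prop) [DecidablePred P] {x : X} (hx : ¬ P x)
    (f : MvPolynomial X ℂ) :
    pderiv x (aeval (fun y => if P y then 0 else (MvPolynomial.X y : MvPolynomial X ℂ)) f) =
    aeval (fun y => if P y then 0 else (MvPolynomial.X y : MvPolynomial X ℂ)) (pderiv x f) := by
  classical
  induction f using MvPolynomial.induction_on with
  | C c => simp
  | add p q hp hq => rw [map_add, map_add, hp, hq, map_add, map_add]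
  | mul_X p y hp =>
    rw [map_mul, aeval_X, Derivation.leibniz, Derivation.leibniz, hp]
    rw [map_add, smul_eq_mul, smul_eq_mul, smul_eq_mul, smul_eq_mul, map_mul, map_mul, aeval_X]
    have key : pderiv x (if P y then 0 else (MvPolynomial.X y : MvPolynomial X ℂ)) =
      aeval (fun y => if P y then 0 else (MvPolynomial.X y : MvPolynomial X ℂ))
        (pderiv x (MvPolynomial.X y : MvPolynomial X ℂ)) := by
      by_cases hxy : y = x
      · subst hxy
        rw [if_neg hx, pderiv_X_self]
        exact (map_one _).symm
      · rw [pderiv_X_of_ne hxy, map_zero]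
        split_ifs with hy
        · exact map_zero _
        · rw [pderiv_X_of_ne hxy]
    rw [key]

theorem pderiv_res_of_notMem (S : Sup V X q) {a : V} {x : X} (hx : a ∉ S.supp x)
    (f : MvPolynomial X ℂ) : pderiv x (res S a f) = res S a (pderiv x f) :=
  pderiv_aeval_ite (fun y => a ∈ S.supp y) hx f

theorem Kill_res (S : Sup V X q) (a : V) (K : ℕ) (W : Finset V) (f : MvPolynomial X ℂ)
    (h : Kill S K W f) : Kill S K (W.erase a) (res S a f) := by
  induction K generalizing W f with
  | zero =>
    have : f = 0 := h
    subst this
    exact Kill_zero S 0 _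
  | succ K ih =>
    intro x a1 p1 ha1 hp1 hx hpx
    rw [Finset.mem_erase] at ha1 hp1
    by_cases hax : a ∈ S.supp x
    · have h1 : D x (Equiv.swap a1 p1 • x) (res S a f) = 0 := by
        rw [D_apply, pderiv_res_of_mem S hax, pderiv_res_of_mem S, sub_zero]
        rw [S.mem_swap, Equiv.swap_apply_of_ne_of_ne ha1.1.symm hp1.1.symm]
        exact hax
      rw [h1]
      exact Kill_zero S K _
    · have h1 : D x (Equiv.swap a1 p1 • x) (res S a f) =
          res S a (D x (Equiv.swap a1 p1 • x) f) := by
        rw [D_apply, D_apply, map_sub, pderiv_res_of_notMem S hax, pderiv_res_of_notMem S]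
        rw [S.mem_swap, Equiv.swap_apply_of_ne_of_ne ha1.1.symm hp1.1.symm]
        exact hax
      rw [h1]
      have h2 := ih _ _ (h x a1 p1 ha1.2 hp1.2 hx hpx)
      have h3 : (W \ insert p1 (S.supp x)).erase a = W.erase a \ insert p1 (S.supp x) := by
        ext v
        simp only [Finset.mem_erase, Finset.mem_sdiff]
        tauto
      rw [h3] at h2
      exact h2

theorem IsHomogeneous.res {S : Sup V X q} {a : V} {d : ℕ} {f : MvPolynomial X ℂ}
    (hf : f.IsHomogeneous d) : (res S a f).IsHomogeneous d := by
  have h := hf.aeval (fun y => if a ∈ S.supp y then (0 : MvPolynomial X ℂ) else MvPolynomial.X y)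
    (n := 1) (fun y => by
      split_ifs
      · exact isHomogeneous_zero _ _ _
      · exact isHomogeneous_X _ _)
  rw [one_mul] at h
  exact h

theorem vars_res {S : Sup V X q} {a : V} {f : MvPolynomial X ℂ} {y : X}
    (hy : y ∈ (res S a f).vars) : y ∈ f.vars ∧ a ∉ S.supp y := by
  classical
  have h := vars_bind₁ (fun y => if a ∈ S.supp y then (0 : MvPolynomial X ℂ) else MvPolynomial.X y) f
  have h2 : y ∈ f.vars.biUnion (fun i =>
      (if a ∈ S.supp i then (0 : MvPolynomial X ℂ) else MvPolynomial.X i).vars) := h hy
  rw [Finset.mem_biUnion] at h2
  obtain ⟨i, hi, hyi⟩ := h2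
  split_ifs at hyi with h3
  · simp at hyi
  · rw [vars_X, Finset.mem_singleton] at hyi
    subst hyi
    exact ⟨hi, h3⟩

theorem vars_pderiv {x y : X} {f : MvPolynomial X ℂ} (hy : y ∈ (pderiv x f).vars) :
    y ∈ f.vars := by
  classical
  rw [mem_vars_iff_mem_support] at hy ⊢
  obtain ⟨m, hm, hmy⟩ := hy
  rw [mem_support_iff, coeff_pderiv] at hm
  refine ⟨m + Finsupp.single x 1, ?_, ?_⟩
  · rw [mem_support_iff]
    intro h
    rw [h, zero_mul] at hm
    exact hm rfl
  · rw [Finsupp.mem_support_iff] at hmy ⊢
    simp only [Finsupp.add_apply]
    omega

theorem vars_D {x x' y : X} {f : MvPolynomial X ℂ} (hy : y ∈ (D x x' f).vars) :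
    y ∈ f.vars := by
  classical
  rw [D_apply] at hy
  have := vars_sub_subset _ hy
  rw [Finset.mem_union] at this
  rcases this with h | h
  · exact vars_pderiv h
  · exact vars_pderiv h

variable [Fintype X]

/-- the main bound -/
def bnd (m : ℕ → ℕ) (d0 q n Q : ℕ) (K β : ℕ) : ℕ :=
  (d0 + 1) ^ (2 * m (q + β + K * (q + 1))) * (1 + n * Q) ^ K

theorem peel [Fintype V] (S : Sup V X q) (m : ℕ → ℕ) (hm : Monotone m)
    (hmU : ∀ U : Finset V, (Finset.univ.filter (fun x : X => S.supp x ⊆ U)).card ≤ m U.card)
    (d0 Q : ℕ) (hQ : (d0 + 2) * (Fintype.card X * (d0 + 2)) ≤ Q) (K : ℕ) :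
    ∀ (β d : ℕ) (f : MvPolynomial X ℂ) (U W : Finset V), W ⊆ U → (U \ W).card ≤ β →
      f.IsHomogeneous d → d ≤ d0 → (∀ x ∈ f.vars, S.supp x ⊆ U) → Kill S K W f →
      WR d (bnd m d0 q (Fintype.card V) Q K β) f := by
  classical
  induction K with
  | zero =>
    intro β d f U W _ _ _ _ _ hk
    have : f = 0 := hk
    subst this
    exact WR.zero _ _
  | succ K ihK =>
    intro β
    set B := bnd m d0 q (Fintype.card V) Q K (β + q + 1) with hB
    set E := (d0 + 1) ^ (2 * m (q + β)) with hE
    have inner : ∀ (w d : ℕ) (f : MvPolynomial X ℂ) (U W : Finset V), W.card = w → W ⊆ U →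
        (U \ W).card ≤ β → f.IsHomogeneous d → d ≤ d0 → (∀ x ∈ f.vars, S.supp x ⊆ U) →
        Kill S (K + 1) W f → WR d (E + w * (Q * B)) f := by
      intro w
      induction w with
      | zero =>
        intro d f U W hw hWU hUW hf hd hvars _
        have hU : U.card ≤ q + β := by
          have := Finset.card_sdiff_add_card_eq_card hWU
          omega
        refine (WR_base (Finset.univ.filter (fun x : X => S.supp x ⊆ U)) f hf ?_).mono ?_
        · intro x hx
          rw [Finset.mem_filter]
          exact ⟨Finset.mem_univ _, hvars x hx⟩
        · refine le_trans ?_ (Nat.le_add_right _ _)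
          calc (d + 1) ^ (2 * (Finset.univ.filter (fun x : X => S.supp x ⊆ U)).card)
              ≤ (d0 + 1) ^ (2 * (Finset.univ.filter (fun x : X => S.supp x ⊆ U)).card) :=
                Nat.pow_le_pow_left (by omega) _
            _ ≤ (d0 + 1) ^ (2 * m (q + β)) :=
                Nat.pow_le_pow_right (by omega)
                  (Nat.mul_le_mul_left _ ((hmU U).trans (hm hU)))
      | succ w ihw =>
        intro d f U W hw hWU hUW hf hd hvars hk
        by_cases hsmall : W.card ≤ q
        · have hU : U.card ≤ q + β := by
            have := Finset.card_sdiff_add_card_eq_card hWU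
            omega
          refine (WR_base (Finset.univ.filter (fun x : X => S.supp x ⊆ U)) f hf ?_).mono ?_
          · intro x hx
            rw [Finset.mem_filter]
            exact ⟨Finset.mem_univ _, hvars x hx⟩
          · refine le_trans ?_ (Nat.le_add_right _ _)
            calc (d + 1) ^ (2 * (Finset.univ.filter (fun x : X => S.supp x ⊆ U)).card)
                ≤ (d0 + 1) ^ (2 * (Finset.univ.filter (fun x : X => S.supp x ⊆ U)).card) :=
                  Nat.pow_le_pow_left (by omega) _
              _ ≤ (d0 + 1) ^ (2 * m (q + β)) :=
                  Nat.pow_le_pow_right (by omega)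
                    (Nat.mul_le_mul_left _ ((hmU U).trans (hm hU)))
        · -- the degree zero case
          rcases Nat.eq_zero_or_pos d with hd0 | hdpos
          · subst hd0
            have hfc : f = C (coeff 0 f) := by
              have : f.totalDegree = 0 := by
                have := hf.totalDegree_le
                omega
              exact totalDegree_eq_zero_iff_eq_C.1 this
            have hv : f.vars ⊆ (∅ : Finset X) := by
              rw [hfc, vars_C]
            refine (WR_base ∅ f hf hv).mono ?_
            simp only [Finset.card_empty]
            have : 1 ≤ E := Nat.one_le_pow _ _ (by omega)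
            omega
          obtain ⟨e, rfl⟩ : ∃ e, d = e + 1 := ⟨d - 1, by omega⟩
          -- choose the vertex to peel and the pivots
          have hWne : W.Nonempty := by
            rw [← Finset.card_pos]; omega
          obtain ⟨a, ha⟩ := hWne
          have hpiv : ∀ x : X, ∃ p ∈ W, p ∉ S.supp x := by
            intro x
            by_contra hcon
            push Not at hcon
            have : W ⊆ S.supp x := fun v hv => hcon v hv
            have := Finset.card_le_card this
            have := S.card_le x
            omega
          choose piv hpivW hpivx using hpiv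
          let A : Finset X := Finset.univ.filter (fun x => a ∈ S.supp x)
          let τ : X → X := fun x => Equiv.swap a (piv x) • x
          have hτ : ∀ x ∈ A, τ x ∉ A := by
            intro x hx
            simp only [A, Finset.mem_filter, Finset.mem_univ, true_and, τ] at hx ⊢
            rw [S.mem_swap, Equiv.swap_apply_left]
            exact hpivx x
          obtain ⟨wt, hwt⟩ := homotopy A τ hτ (e + 1)
          have hid := hwt f hf.totalDegree_le
          rw [hid]
          -- the merged part
          have hmerge : WR (e + 1) (E + w * (Q * B)) (aeval (fun y => lin (Mv A τ 0 y)) f) := by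
            have h1 : aeval (fun y => lin (Mv A τ 0 y)) f =
                aeval (fun y => lin (Mv A τ 0 y)) (res S a f) := by
              have h2 : (aeval (fun y => lin (Mv A τ 0 y)) : MvPolynomial X ℂ →ₐ[ℂ] MvPolynomial X ℂ) =
                  (aeval (fun y => lin (Mv A τ 0 y)) : MvPolynomial X ℂ →ₐ[ℂ] MvPolynomial X ℂ).comp
                    (res S a) := by
                apply MvPolynomial.algHom_ext
                intro y
                simp only [AlgHom.comp_apply, res, aeval_X]
                split_ifs with hy
                · rw [map_zero]
                  have : Mv A τ 0 y = 0 := by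
                    unfold Mv Bv
                    have hyA : y ∈ A := by simp [A, hy]
                    simp [hyA]
                  rw [this]
                  simp [lin]
                · rw [aeval_X]
              exact congrArg (fun φ : MvPolynomial X ℂ →ₐ[ℂ] MvPolynomial X ℂ => φ f) h2
            rw [h1]
            apply WR.subst
            apply ihw (e + 1) (res S a f) (U.erase a) (W.erase a)
            · rw [Finset.card_erase_of_mem ha]; omega
            · exact Finset.erase_subset_erase _ hWU
            · have : U.erase a \ W.erase a ⊆ U \ W := by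
                intro v
                simp only [Finset.mem_sdiff, Finset.mem_erase]
                tauto
              exact (Finset.card_le_card this).trans hUW
            · exact IsHomogeneous.res hf
            · exact hd
            · intro y hy
              obtain ⟨h3, h4⟩ := vars_res hy
              intro v hv
              rw [Finset.mem_erase]
              refine ⟨?_, hvars y h3 hv⟩
              rintro rfl
              exact h4 hv
            · exact Kill_res S a (K + 1) W f hk
          have hterm : ∀ (j : Fin (e + 1 + 1)) (x : X), x ∈ A →
              WR (e + 1) (B * (e + 2)) (MvPolynomial.X x *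
                aeval (fun y => lin (Mv A τ ((j : ℕ) : ℂ) y)) (D x (τ x) f)) := by
            intro j x hx
            have hxa : a ∈ S.supp x := by simpa [A] using hx
            have h1 : WR e B (D x (τ x) f) := by
              apply ihK (β + q + 1) e (D x (τ x) f) U (W \ insert (piv x) (S.supp x))
              · exact Finset.sdiff_subset.trans hWU
              · have h2 : U \ (W \ insert (piv x) (S.supp x)) ⊆
                    (U \ W) ∪ insert (piv x) (S.supp x) := by
                  intro v
                  simp only [Finset.mem_sdiff, Finset.mem_union]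
                  tauto
                have h3 := Finset.card_le_card h2
                have h4 := Finset.card_union_le (U \ W) (insert (piv x) (S.supp x))
                have h5 := Finset.card_insert_le (piv x) (S.supp x)
                have h6 := S.card_le x
                omega
              · rw [D_apply]
                have h2 : (pderiv x f).IsHomogeneous e := by
                  simpa using hf.pderiv (i := x)
                have h3 : (pderiv (τ x) f).IsHomogeneous e := by
                  simpa using hf.pderiv (i := τ x)
                exact h2.sub h3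
              · omega
              · intro y hy
                exact hvars y (vars_D hy)
              · exact hk x a (piv x) ha (hpivW x) hxa (hpivx x)
            have h2 := (h1.subst (Mv A τ ((j : ℕ) : ℂ))).lin_mul (Pi.single x 1)
            rw [lin_single] at h2
            exact h2
          have hsum : WR (e + 1) (Fintype.card (Fin (e + 1 + 1)) * (Fintype.card X * (B * (e + 2))))
              (∑ j : Fin (e + 1 + 1), wt j • ∑ x ∈ A, MvPolynomial.X x *
                aeval (fun y => lin (Mv A τ ((j : ℕ) : ℂ) y)) (D x (τ x) f)) := by
            apply WR.sum Finset.univ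
            intro j _
            apply WR.smul
            refine (WR.sum A _ (fun x hx => hterm j x hx)).mono ?_
            exact Nat.mul_le_mul_right _ (Finset.card_le_univ A)
          refine (hmerge.add hsum).mono ?_
          have h1 : Fintype.card (Fin (e + 1 + 1)) * (Fintype.card X * (B * (e + 2))) ≤ Q * B := by
            rw [Fintype.card_fin]
            calc (e + 1 + 1) * (Fintype.card X * (B * (e + 2)))
                = ((e + 2) * (Fintype.card X * (e + 2))) * B := by ring
              _ ≤ ((d0 + 2) * (Fintype.card X * (d0 + 2))) * B := by
                  gcongr <;> omega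
              _ ≤ Q * B := Nat.mul_le_mul_right _ hQ
          calc E + w * (Q * B) + Fintype.card (Fin (e + 1 + 1)) * (Fintype.card X * (B * (e + 2)))
              ≤ E + w * (Q * B) + Q * B := by omega
            _ = E + (w + 1) * (Q * B) := by ring
    intro d f U W hWU hUW hf hd hvars hk
    refine (inner W.card d f U W rfl hWU hUW hf hd hvars hk).mono ?_
    have hEB : E ≤ B := by
      rw [hE, hB]
      unfold bnd
      refine le_trans ?_ (Nat.le_mul_of_pos_right _ (by positivity))
      apply Nat.pow_le_pow_right (by omega)
      apply Nat.mul_le_mul_left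
      apply hm
      omega
    have hW : W.card ≤ Fintype.card V := Finset.card_le_univ W
    have hB2 : bnd m d0 q (Fintype.card V) Q (K + 1) β = B * (1 + Fintype.card V * Q) := by
      rw [hB]
      unfold bnd
      rw [pow_succ]
      have : q + β + (K + 1) * (q + 1) = q + (β + q + 1) + K * (q + 1) := by ring
      rw [this]
      ring
    rw [hB2]
    calc E + W.card * (Q * B) ≤ B + Fintype.card V * (Q * B) := by
          gcongr
      _ = B * (1 + Fintype.card V * Q) := by ring

end Run7.h923
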