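import Pool.Agent.Run7.h923.Rank

set_option autoImplicit false
open MvPolynomial

namespace Run7.h923

section chain

variable {X : Type*} [Fintype X]

/-- chain rule -/
theorem derivative_aeval' (g : X → Polynomial ℂ) (f : MvPolynomial X ℂ) :
    Polynomial.derivative (aeval g f) =
      ∑ y, Polynomial.derivative (g y) * aeval g (pderiv y f) := by
  classical
  induction f using MvPolynomial.induction_on with
  | C a => simp
  | add p q hp hq =>
    simp [hp, hq, mul_add, Finset.sum_add_distrib]
  | mul_X p x hp =>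
    rw [map_mul, Polynomial.derivative_mul, hp, aeval_X]
    simp only [Derivation.leibniz, pderiv_X, smul_eq_mul, map_add, map_mul, aeval_X]
    simp_rw [mul_add, Finset.sum_add_distrib]
    rw [add_comm]
    congr 1
    · rw [Finset.sum_eq_single x]
      · simp
        ring
      · intro b _ hb
        simp [Ne.symm hb]
      · simp
    · rw [Finset.sum_mul]
      refine Finset.sum_congr rfl (fun y _ => by ring)

/-- quadrature: `F 1 - F 0` from the values of the derivative -/
theorem exists_quadrature (d : ℕ) : ∃ w : Fin (d + 1) → ℂ, ∀ F : Polynomial ℂ,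
    F.natDegree ≤ d → F.eval 1 - F.eval 0 =
      ∑ j : Fin (d + 1), w j * (Polynomial.derivative F).eval ((j : ℕ) : ℂ) := by
  classical
  obtain ⟨w, hw⟩ := exists_weights' d (fun i => ((i : ℂ) + 1)⁻¹)
  refine ⟨w, ?_⟩
  intro F hF
  have h1 : F.eval 1 = ∑ i ∈ Finset.range (d + 1), F.coeff i := by
    rw [Polynomial.eval_eq_sum_range' (n := d + 1) (by omega)]
    simp
  have h0 : F.eval 0 = F.coeff 0 := by
    rw [← Polynomial.coeff_zero_eq_eval_zero]
  have hd : ∀ t : ℂ, (Polynomial.derivative F).eval t =
      ∑ i ∈ Finset.range (d + 1), F.coeff (i + 1) * ((i : ℂ) + 1) * t ^ i := by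
    intro t
    have : (Polynomial.derivative F).natDegree < d + 1 := by
      have := Polynomial.natDegree_derivative_le F
      omega
    rw [Polynomial.eval_eq_sum_range' this]
    refine Finset.sum_congr rfl (fun i _ => ?_)
    rw [Polynomial.coeff_derivative]
  simp_rw [hd, Finset.mul_sum]
  rw [Finset.sum_comm]
  have h2 : ∀ i ∈ Finset.range (d + 1),
      ∑ j : Fin (d + 1), w j * (F.coeff (i + 1) * ((i : ℂ) + 1) * ((j : ℕ) : ℂ) ^ i) =
      F.coeff (i + 1) := by
    intro i hi
    rw [Finset.mem_range] at hi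
    have h3 : ∑ j : Fin (d + 1), w j * (F.coeff (i + 1) * ((i : ℂ) + 1) * ((j : ℕ) : ℂ) ^ i) =
        F.coeff (i + 1) * ((i : ℂ) + 1) * ∑ j : Fin (d + 1), w j * ((j : ℕ) : ℂ) ^ i := by
      rw [Finset.mul_sum]
      refine Finset.sum_congr rfl (fun j _ => by ring)
    rw [h3, hw i (by omega)]
    have : ((i : ℂ) + 1) ≠ 0 := by exact_mod_cast Nat.succ_ne_zero i
    field_simp
  rw [Finset.sum_congr rfl h2, h1, h0, Finset.sum_range_succ']
  rw [Finset.sum_range_succ (fun i => F.coeff (i + 1)) d]
  rw [Polynomial.coeff_eq_zero_of_natDegree_lt (show F.natDegree < d + 1 by omega)]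
  ring

end chain

section homotopy

variable {X : Type*} [Fintype X] [DecidableEq X]

/-- directions of the homotopy -/
noncomputable def Bv (A : Finset X) (τ : X → X) (y : X) : X → ℂ :=
  if y ∈ A then Pi.single y 1 else -∑ x ∈ A with τ x = y, Pi.single x 1

noncomputable def Mv (A : Finset X) (τ : X → X) (t : ℂ) (y : X) : X → ℂ :=
  Pi.single y 1 - (1 - t) • Bv A τ y

noncomputable def D (u v : X) : MvPolynomial X ℂ →ₗ[ℂ] MvPolynomial X ℂ :=
  (pderiv u).toLinearMap - (pderiv v).toLinearMap

omit [Fintype X] [DecidableEq X] in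
theorem D_apply (u v : X) (f : MvPolynomial X ℂ) : D u v f = pderiv u f - pderiv v f := rfl

omit [DecidableEq X] in
theorem eval_lin (z v : X → ℂ) : eval z (lin v) = ∑ x, v x * z x := by
  simp [lin]

omit [Fintype X] in
theorem split_sum [Fintype X] (A : Finset X) (τ : X → X) (hτ : ∀ x ∈ A, τ x ∉ A) (z E : X → ℂ) :
    ∑ y, (if y ∈ A then z y else -∑ x ∈ A with τ x = y, z x) * E y =
      ∑ x ∈ A, z x * (E x - E (τ x)) := by
  rw [← Finset.sum_add_sum_compl A]
  have h4 : ∑ i ∈ A, (if i ∈ A then z i else -∑ x ∈ A with τ x = i, z x) * E i =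
      ∑ i ∈ A, z i * E i := by
    refine Finset.sum_congr rfl (fun i hi => ?_)
    simp [hi]
  have h5 : ∑ i ∈ Aᶜ, (if i ∈ A then z i else -∑ x ∈ A with τ x = i, z x) * E i =
      -∑ i ∈ A, z i * E (τ i) := by
    have h6 : ∀ i ∈ Aᶜ, (if i ∈ A then z i else -∑ x ∈ A with τ x = i, z x) * E i =
        -∑ x ∈ A with τ x = i, z x * E (τ x) := by
      intro i hi
      rw [Finset.mem_compl] at hi
      simp only [hi, if_false]
      rw [neg_mul, Finset.sum_mul]
      congr 1
      refine Finset.sum_congr rfl (fun x hx => ?_)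
      rw [Finset.mem_filter] at hx
      rw [hx.2]
    rw [Finset.sum_congr rfl h6, Finset.sum_neg_distrib]
    congr 1
    apply Finset.sum_fiberwise_of_maps_to (s := A) (t := Aᶜ) (g := τ)
    intro x hx
    rw [Finset.mem_compl]
    exact hτ x hx
  rw [h4, h5, ← sub_eq_add_neg, ← Finset.sum_sub_distrib]
  refine Finset.sum_congr rfl (fun i _ => by ring)

theorem homotopy (A : Finset X) (τ : X → X) (hτ : ∀ x ∈ A, τ x ∉ A) (d : ℕ) :
    ∃ w : Fin (d + 1) → ℂ, ∀ f : MvPolynomial X ℂ, f.totalDegree ≤ d →
      f = aeval (fun y => lin (Mv A τ 0 y)) f +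
        ∑ j : Fin (d + 1), w j • ∑ x ∈ A, MvPolynomial.X x *
          aeval (fun y => lin (Mv A τ ((j : ℕ) : ℂ) y)) (D x (τ x) f) := by
  obtain ⟨w, hw⟩ := exists_quadrature d
  refine ⟨w, ?_⟩
  intro f hf
  apply MvPolynomial.funext
  intro z
  -- value of the direction at z
  let b : X → ℂ := fun y => if y ∈ A then z y else -∑ x ∈ A with τ x = y, z x
  have hb : ∀ t y, eval z (lin (Mv A τ t y)) = z y - (1 - t) * b y := by
    intro t y
    have h1 : ∀ u v : X → ℂ, eval z (lin (u - v)) = eval z (lin u) - eval z (lin v) := by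
      intro u v
      simp [eval_lin, sub_mul, Finset.sum_sub_distrib]
    have h2 : ∀ x : X, eval z (lin (Pi.single x (1 : ℂ))) = z x := by
      intro x
      rw [lin_single]
      simp
    unfold Mv
    rw [h1, h2, lin_smul]
    simp only [map_mul, eval_C]
    congr 2
    unfold Bv
    by_cases hy : y ∈ A
    · simp only [hy, if_true, h2, b]
    · simp only [hy, if_false, b]
      have h3 : ∀ s : Finset X, eval z (lin (∑ x ∈ s, Pi.single x (1 : ℂ))) = ∑ x ∈ s, z x := by
        intro s
        induction s using Finset.induction_on with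
        | empty => simp [eval_lin]
        | insert a s ha ih =>
          rw [Finset.sum_insert ha, Finset.sum_insert ha, lin_add, map_add, h2, ih]
      have h4 : ∀ u : X → ℂ, eval z (lin (-u)) = - eval z (lin u) := by
        intro u
        simp [eval_lin]
      rw [h4, h3]
  let g : X → Polynomial ℂ := fun y => Polynomial.C (z y - b y) + Polynomial.C (b y) * Polynomial.X
  have hg : ∀ t : ℂ, ∀ h : MvPolynomial X ℂ, (aeval g h).eval t = eval (fun y => z y - (1 - t) * b y) h := by
    intro t h
    induction h using MvPolynomial.induction_on with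
    | C a => simp
    | add p q hp hq => simp [hp, hq]
    | mul_X p x hp =>
      simp only [map_mul, Polynomial.eval_mul, hp, aeval_X, eval_X]
      congr 1
      simp only [g, Polynomial.eval_add, Polynomial.eval_mul, Polynomial.eval_C, Polynomial.eval_X]
      ring
  have hev : ∀ t : ℂ, ∀ h : MvPolynomial X ℂ,
      eval z (aeval (fun y => lin (Mv A τ t y)) h) = eval (fun y => z y - (1 - t) * b y) h := by
    intro t h
    induction h using MvPolynomial.induction_on with
    | C a => simp
    | add p q hp hq => rw [map_add, map_add, map_add, hp, hq]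
    | mul_X p x hp =>
      simp only [map_mul, hp, aeval_X, eval_X, hb]
  have hdeg : (aeval g f).natDegree ≤ d := by
    have := MvPolynomial.aeval_natDegree_le f hf g (n := 1) (fun i => by
      refine (Polynomial.natDegree_add_le _ _).trans ?_
      refine max_le ?_ ?_
      · simp
      · exact (Polynomial.natDegree_C_mul_le _ _).trans Polynomial.natDegree_X_le)
    simpa using this
  have key := hw (aeval g f) hdeg
  rw [hg, hg] at key
  have h1 : eval z f = eval (fun y => z y - (1 - 1) * b y) f := by simp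
  rw [h1, map_add, hev]
  have h2 : eval z (∑ j : Fin (d + 1), w j • ∑ x ∈ A, MvPolynomial.X x *
      aeval (fun y => lin (Mv A τ ((j : ℕ) : ℂ) y)) (D x (τ x) f)) =
      ∑ j : Fin (d + 1), w j * (Polynomial.derivative (aeval g f)).eval ((j : ℕ) : ℂ) := by
    rw [map_sum]
    refine Finset.sum_congr rfl (fun j _ => ?_)
    rw [smul_eq_C_mul, map_mul, eval_C]
    congr 1
    rw [derivative_aeval', Polynomial.eval_finsetSum, map_sum]
    have h3 : ∀ y, Polynomial.derivative (g y) = Polynomial.C (b y) := by
      intro y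
      simp [g]
    have h4 := split_sum A τ hτ z (fun y => eval (fun y => z y - (1 - ((j : ℕ) : ℂ)) * b y) (pderiv y f))
    have h5 : ∀ x ∈ A, eval z (MvPolynomial.X x *
        aeval (fun y => lin (Mv A τ ((j : ℕ) : ℂ) y)) (D x (τ x) f)) =
        z x * (eval (fun y => z y - (1 - ((j : ℕ) : ℂ)) * b y) (pderiv x f) -
          eval (fun y => z y - (1 - ((j : ℕ) : ℂ)) * b y) (pderiv (τ x) f)) := by
      intro x _
      rw [map_mul, eval_X, hev, D_apply, map_sub]
    rw [Finset.sum_congr rfl h5, ← h4]
    refine Finset.sum_congr rfl (fun y _ => ?_)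
    rw [h3, Polynomial.eval_mul, Polynomial.eval_C, hg]
  rw [h2, ← key]
  ring

end homotopy

end Run7.h923
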