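import Pool.Agent.Run7.h923.Tuples

set_option autoImplicit false
open MvPolynomial Filter Topology

namespace Run7.h923

section pull

variable {X Y : Type} [Fintype X] [Fintype Y]

omit [Fintype X] [Fintype Y] in
theorem pderiv_aeval_of {L : X → MvPolynomial Y ℂ} {y : Y} {x : X}
    (h : ∀ z, pderiv y (L z) = aeval L (pderiv x (MvPolynomial.X z : MvPolynomial X ℂ)))
    (p : MvPolynomial X ℂ) : pderiv y (aeval L p) = aeval L (pderiv x p) := by
  induction p using MvPolynomial.induction_on with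
  | C c => simp
  | add p q hp hq => rw [map_add, map_add, hp, hq, map_add, map_add]
  | mul_X p z hp =>
    rw [map_mul, aeval_X, Derivation.leibniz, Derivation.leibniz, hp, h z]
    rw [map_add, smul_eq_mul, smul_eq_mul, smul_eq_mul, smul_eq_mul, map_mul, map_mul, aeval_X]

omit [Fintype X] [Fintype Y] in
theorem pderiv_aeval_zero {L : X → MvPolynomial Y ℂ} {y : Y}
    (h : ∀ z, pderiv y (L z) = 0)
    (p : MvPolynomial X ℂ) : pderiv y (aeval L p) = 0 := by
  induction p using MvPolynomial.induction_on with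
  | C c => simp
  | add p q hp hq => rw [map_add, map_add, hp, hq, add_zero]
  | mul_X p z hp =>
    rw [map_mul, aeval_X, Derivation.leibniz, hp, h z, smul_zero, smul_zero, add_zero]

open Classical in
/-- the linear form attached to a fibre -/
noncomputable def Lf (Rel : Y → X → Prop) (x : X) : MvPolynomial Y ℂ :=
  ∑ y ∈ Finset.univ.filter (fun y => Rel y x), MvPolynomial.X y

omit [Fintype X] in
theorem Lf_homogeneous (Rel : Y → X → Prop) (x : X) : (Lf Rel x).IsHomogeneous 1 := by
  unfold Lf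
  exact IsHomogeneous.sum _ _ _ (fun y _ => isHomogeneous_X _ _)

omit [Fintype X] in
open Classical in
theorem pderiv_Lf (Rel : Y → X → Prop) (y : Y) (z : X) :
    pderiv y (Lf Rel z) = if Rel y z then 1 else 0 := by
  unfold Lf
  rw [map_sum]
  by_cases h : Rel y z
  · rw [if_pos h, Finset.sum_eq_single y]
    · exact pderiv_X_self y
    · intro b _ hb
      exact pderiv_X_of_ne hb
    · intro hy
      exact (hy (Finset.mem_filter.2 ⟨Finset.mem_univ _, h⟩)).elim
  · rw [if_neg h]
    apply Finset.sum_eq_zero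
    intro b hb
    apply pderiv_X_of_ne
    rintro rfl
    exact h (Finset.mem_filter.1 hb).2

omit [Fintype X] in
theorem dl_aeval (Rel : Y → X → Prop) (hfun : ∀ y x x', Rel y x → Rel y x' → x = x')
    (L : List Y) (p : MvPolynomial X ℂ) :
    dl L (aeval (Lf Rel) p) = 0 ∨
      ∃ L' : List X, L'.length = L.length ∧ dl L (aeval (Lf Rel) p) = aeval (Lf Rel) (dl L' p) := by
  classical
  induction L with
  | nil => exact Or.inr ⟨[], rfl, rfl⟩
  | cons y L ih =>
    rcases ih with ih | ⟨L', hL', ih⟩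
    · left
      rw [dl_cons, ih, map_zero]
    · by_cases hy : ∃ x, Rel y x
      · right
        obtain ⟨x, hx⟩ := hy
        refine ⟨x :: L', by simp [hL'], ?_⟩
        rw [dl_cons, ih, dl_cons]
        apply pderiv_aeval_of
        intro z
        rw [pderiv_Lf]
        by_cases hz : z = x
        · subst hz
          rw [if_pos hx, pderiv_X_self, map_one]
        · rw [if_neg, pderiv_X_of_ne hz, map_zero]
          intro h
          exact hz (hfun y z x h hx)
      · left
        rw [dl_cons, ih]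
        apply pderiv_aeval_zero
        intro z
        rw [pderiv_Lf, if_neg]
        intro h
        exact hy ⟨z, h⟩

theorem finrank_pull (Rel : Y → X → Prop) (hfun : ∀ y x x', Rel y x → Rel y x' → x = x')
    (k : ℕ) (p : MvPolynomial X ℂ) :
    Module.finrank ℂ (Ders k (aeval (Lf Rel) p)) ≤ Module.finrank ℂ (Ders k p) := by
  have := Ders_finite k p
  have h1 : Ders k (aeval (Lf Rel) p) ≤ (Ders k p).map (aeval (Lf Rel)).toLinearMap := by
    unfold Ders
    rw [Submodule.span_le]
    rintro _ ⟨L, hL, rfl⟩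
    have h2 := dl_aeval Rel hfun L p
    rcases h2 with h2 | ⟨L', hL', h2⟩
    · have : L.foldr (fun x p => pderiv x p) (aeval (Lf Rel) p) = 0 := h2
      rw [this]
      exact Submodule.zero_mem _
    · have : L.foldr (fun x p => pderiv x p) (aeval (Lf Rel) p) = aeval (Lf Rel) (dl L' p) := h2
      rw [this]
      exact Submodule.mem_map_of_mem (Submodule.subset_span ⟨L', hL'.trans hL, rfl⟩)
  exact (Submodule.finrank_mono h1).trans (Submodule.finrank_map_le _ _)

open Classical in
theorem recover (Rel : Y → X → Prop) (hfun : ∀ y x x', Rel y x → Rel y x' → x = x')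
    (hsurj : ∀ x, ∃ y, Rel y x) (p : MvPolynomial X ℂ) :
    p = aeval (fun y => lin (fun x => if Rel y x then
      ((Finset.univ.filter (fun y => Rel y x)).card : ℂ)⁻¹ else 0)) (aeval (Lf Rel) p) := by
  have h : ((aeval (fun y => lin (fun x => if Rel y x then
      ((Finset.univ.filter (fun y => Rel y x)).card : ℂ)⁻¹ else 0)) :
        MvPolynomial Y ℂ →ₐ[ℂ] MvPolynomial X ℂ).comp (aeval (Lf Rel))) = AlgHom.id ℂ _ := by
    apply MvPolynomial.algHom_ext
    intro x
    rw [AlgHom.comp_apply, aeval_X, AlgHom.id_apply]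
    unfold Lf
    rw [map_sum]
    have h1 : ∀ y ∈ Finset.univ.filter (fun y => Rel y x),
        aeval (fun y => lin (fun x => if Rel y x then
        ((Finset.univ.filter (fun y => Rel y x)).card : ℂ)⁻¹ else 0))
          (MvPolynomial.X y : MvPolynomial Y ℂ) =
        C ((Finset.univ.filter (fun y => Rel y x)).card : ℂ)⁻¹ * MvPolynomial.X x := by
      intro y hy
      rw [Finset.mem_filter] at hy
      rw [aeval_X]
      unfold lin
      rw [Finset.sum_eq_single x]
      · beta_reduce
        rw [if_pos hy.2]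
      · intro x' _ hx'
        beta_reduce
        rw [if_neg, map_zero, zero_mul]
        intro h
        exact hx' (hfun y x' x h hy.2)
      · intro h
        exact absurd (Finset.mem_univ _) h
    rw [Finset.sum_congr rfl h1, Finset.sum_const, nsmul_eq_mul, ← mul_assoc]
    have h2 : ((Finset.univ.filter (fun y => Rel y x)).card : ℂ) ≠ 0 := by
      obtain ⟨y, hy⟩ := hsurj x
      have : 0 < (Finset.univ.filter (fun y => Rel y x)).card :=
        Finset.card_pos.2 ⟨y, Finset.mem_filter.2 ⟨Finset.mem_univ _, hy⟩⟩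
      exact_mod_cast this.ne'
    have h3 : ((Finset.univ.filter (fun y => Rel y x)).card : MvPolynomial X ℂ) =
        C ((Finset.univ.filter (fun y => Rel y x)).card : ℂ) := by simp
    rw [h3, ← map_mul, mul_inv_cancel₀ h2, map_one, one_mul]
  have h2 := congrArg (fun φ : MvPolynomial X ℂ →ₐ[ℂ] MvPolynomial X ℂ => φ p) h
  exact h2.symm

omit [Fintype X] in
theorem rename_Lf (Rel : Y → X → Prop) (φ : Y → Y) (hφ : Function.Bijective φ) (x x' : X)
    (h : ∀ y, Rel y x ↔ Rel (φ y) x') : rename φ (Lf Rel x) = Lf Rel x' := by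
  classical
  unfold Lf
  rw [map_sum]
  refine Finset.sum_bij (fun y _ => φ y) ?_ ?_ ?_ ?_
  · intro y hy
    rw [Finset.mem_filter] at hy ⊢
    exact ⟨Finset.mem_univ _, (h y).1 hy.2⟩
  · intro y _ y' _ h
    exact hφ.1 h
  · intro z hz
    rw [Finset.mem_filter] at hz
    obtain ⟨y, rfl⟩ := hφ.2 z
    exact ⟨y, Finset.mem_filter.2 ⟨Finset.mem_univ _, (h y).2 hz.2⟩, rfl⟩
  · intro y _
    rw [rename_X]

end pull

/-- the general quantitative theorem -/
theorem main_general {V X : Type} [Fintype V] [DecidableEq V] [Nonempty V] [Fintype X]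
    (ρ : Equiv.Perm V →* Equiv.Perm X) (b q : ℕ)
    (horb : ∃ R : Finset X, R.card ≤ b ∧ ∀ x, ∃ y ∈ R, ∃ σ, ρ σ y = x)
    (hsupp : ∀ x, ∃ T : Finset V, T.card ≤ q ∧
      ∀ σ : Equiv.Perm V, (∀ i ∈ T, σ i = i) → ρ σ x = x)
    (d k M : ℕ) (hM : k * q + k * M * 2 ≤ Fintype.card V)
    (f : MvPolynomial X ℂ) (hf : f.IsHomogeneous d)
    (hsym : ∀ σ : Equiv.Perm V, rename (ρ σ) f = f)
    (hdim : Module.finrank ℂ (Ders k f) < M ^ k) :
    WR d (bnd (fun u => b * u ^ q) d q (Fintype.card V)
      ((d + 2) * (b * Fintype.card V ^ q * (d + 2))) ((k - 1) * q + 1) 0) f := by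
  classical
  obtain ⟨R, hRb, hR⟩ := horb
  choose T hT hTfix using hsupp
  -- tuples enumerating the supports
  have htc : ∀ x, ∃ t : Fin q → V, ∀ v ∈ T x, ∃ i, t i = v := by
    intro x
    let e := (T x).equivFin
    refine ⟨fun i => if h : (i : ℕ) < (T x).card then (e.symm ⟨i, h⟩ : V) else
      Classical.arbitrary V, ?_⟩
    intro v hv
    refine ⟨⟨e ⟨v, hv⟩, lt_of_lt_of_le (e ⟨v, hv⟩).2 (hT x)⟩, ?_⟩
    simp
  choose tc htc using htc
  have hidx : ∃ idx : R → Fin b, Function.Injective idx := by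
    have : Fintype.card R ≤ Fintype.card (Fin b) := by simpa using hRb
    obtain ⟨e⟩ := Function.Embedding.nonempty_of_card_le this
    exact ⟨e, e.injective⟩
  obtain ⟨idx, hidx⟩ := hidx
  let Rel : Yt b q V → X → Prop := fun y x =>
    ∃ (r : R) (σ : Equiv.Perm V), y.1 = idx r ∧ y.2 = (fun i => σ (tc r i)) ∧ x = ρ σ r
  have hfun : ∀ y x x', Rel y x → Rel y x' → x = x' := by
    rintro y x x' ⟨r, σ, h1, h2, rfl⟩ ⟨r', σ', h1', h2', rfl⟩
    have : r = r' := hidx (h1.symm.trans h1')
    subst this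
    have h3 : ∀ i, σ (tc r i) = σ' (tc r i) := fun i => congrFun (h2.symm.trans h2') i
    have h4 : ρ (σ'⁻¹ * σ) r = r := by
      apply hTfix
      intro v hv
      obtain ⟨i, rfl⟩ := htc r v hv
      rw [Equiv.Perm.mul_apply, h3 i]
      exact σ'.symm_apply_apply _
    have h5 : σ = σ' * (σ'⁻¹ * σ) := by group
    rw [h5, map_mul, Equiv.Perm.mul_apply, h4]
  have hsurj : ∀ x, ∃ y, Rel y x := by
    intro x
    obtain ⟨r, hr, σ, hσ⟩ := hR x
    exact ⟨(idx ⟨r, hr⟩, fun i => σ (tc r i)), ⟨r, hr⟩, σ, rfl, rfl, hσ.symm⟩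
  have hequiv : ∀ (τ : Equiv.Perm V) y x, Rel y x → Rel (τ • y) (ρ τ x) := by
    rintro τ y x ⟨r, σ, h1, h2, rfl⟩
    refine ⟨r, τ * σ, h1, ?_, ?_⟩
    · rw [smul_def, h2]
      rfl
    · rw [map_mul]
      rfl
  have hequiv' : ∀ (τ : Equiv.Perm V) y x, Rel (τ • y) (ρ τ x) → Rel y x := by
    intro τ y x h
    have := hequiv τ⁻¹ _ _ h
    rw [smul_smul, inv_mul_cancel, one_smul, ← Equiv.Perm.mul_apply, ← map_mul,
      inv_mul_cancel, map_one] at this
    exact this
  set F := aeval (Lf Rel) f with hFdef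
  have hFhom : F.IsHomogeneous d := by
    have := hf.aeval (Lf Rel) (n := 1) (fun x => Lf_homogeneous Rel x)
    rw [one_mul] at this
    exact this
  have hFsym : ∀ τ : Equiv.Perm V, act (Yt b q V) τ F = F := by
    intro τ
    have h1 : ∀ x, act (Yt b q V) τ (Lf Rel x) = Lf Rel (ρ τ x) := fun x =>
      rename_Lf Rel (fun y => τ • y) (MulAction.bijective τ) x (ρ τ x)
        (fun y => ⟨hequiv τ y x, hequiv' τ y x⟩)
    have h2 : act (Yt b q V) τ F = aeval (fun x => Lf Rel (ρ τ x)) f := by
      have h3 : (act (Yt b q V) τ).comp (aeval (Lf Rel)) = aeval (fun x => Lf Rel (ρ τ x)) := by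
        apply MvPolynomial.algHom_ext
        intro x
        rw [AlgHom.comp_apply, aeval_X, aeval_X, h1]
      rw [hFdef, ← h3, AlgHom.comp_apply]
    rw [h2]
    have h4 := hsym τ
    conv_rhs => rw [hFdef, ← h4, aeval_rename]
    rfl
  have hdimF : Module.finrank ℂ (Ders k F) < M ^ k :=
    lt_of_le_of_lt (finrank_pull Rel hfun k f) hdim
  have hWR := main_tuples d k M hM F hFhom hFsym hdimF
  rw [recover Rel hfun hsurj f]
  exact hWR.subst _

end Run7.h923
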