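import Mathlib

set_option autoImplicit false
open MvPolynomial

namespace Run7.h923

variable {X : Type*} [Fintype X]

/-- the linear form with coefficient vector `v` -/
noncomputable def lin (v : X → ℂ) : MvPolynomial X ℂ := ∑ x, C (v x) * MvPolynomial.X x

/-- weighted Waring rank at most `r` in degree `d` -/
def WR (d r : ℕ) (f : MvPolynomial X ℂ) : Prop :=
  ∃ s : Finset (X → ℂ), s.card ≤ r ∧
    f ∈ Submodule.span ℂ ((fun v => lin v ^ d) '' (s : Set (X → ℂ)))

theorem lin_add (u v : X → ℂ) : lin (u + v) = lin u + lin v := by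
  simp [lin, add_mul, Finset.sum_add_distrib]

theorem lin_smul (c : ℂ) (v : X → ℂ) : lin (c • v) = C c * lin v := by
  simp [lin, Finset.mul_sum, mul_assoc]

theorem lin_single [DecidableEq X] (x : X) : lin (Pi.single x (1 : ℂ)) = MvPolynomial.X x := by
  unfold lin
  rw [Finset.sum_eq_single x]
  · simp
  · intro b _ hb
    simp [hb]
  · simp

theorem WR.mono {d r r' : ℕ} {f : MvPolynomial X ℂ} (h : WR d r f) (hr : r ≤ r') : WR d r' f := by
  obtain ⟨s, hs, hf⟩ := h
  exact ⟨s, hs.trans hr, hf⟩

theorem WR.zero (d r : ℕ) : WR d r (0 : MvPolynomial X ℂ) :=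
  ⟨∅, by simp, by simp⟩

theorem WR.add {d r r' : ℕ} {f g : MvPolynomial X ℂ} (hf : WR d r f) (hg : WR d r' g) :
    WR d (r + r') (f + g) := by
  classical
  obtain ⟨s, hs, hf⟩ := hf
  obtain ⟨t, ht, hg⟩ := hg
  refine ⟨s ∪ t, (Finset.card_union_le _ _).trans (by omega), ?_⟩
  apply Submodule.add_mem
  · exact Submodule.span_mono (Set.image_mono (by simp)) hf
  · exact Submodule.span_mono (Set.image_mono (by simp)) hg

theorem WR.smul {d r : ℕ} {f : MvPolynomial X ℂ} (c : ℂ) (hf : WR d r f) :
    WR d r (c • f) := by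
  obtain ⟨s, hs, hf⟩ := hf
  exact ⟨s, hs, Submodule.smul_mem _ _ hf⟩

theorem WR.sum {ι : Type*} {d r : ℕ} (s : Finset ι) (f : ι → MvPolynomial X ℂ)
    (h : ∀ i ∈ s, WR d r (f i)) : WR d (s.card * r) (∑ i ∈ s, f i) := by
  classical
  induction s using Finset.induction_on with
  | empty => simpa using WR.zero d 0
  | insert a s ha ih =>
    rw [Finset.sum_insert ha, Finset.card_insert_of_notMem ha]
    have h1 := h a (Finset.mem_insert_self _ _)
    have h2 := ih (fun i hi => h i (Finset.mem_insert_of_mem hi))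
    exact (h1.add h2).mono (by ring_nf; omega)

/-- image under a linear map sending powers of linear forms to something of rank `≤ R` -/
theorem WR.map {Y : Type*} [Fintype Y] {d e r R : ℕ} {f : MvPolynomial X ℂ} (hf : WR d r f)
    (φ : MvPolynomial X ℂ →ₗ[ℂ] MvPolynomial Y ℂ)
    (hφ : ∀ v : X → ℂ, WR e R (φ (lin v ^ d))) : WR e (r * R) (φ f) := by
  classical
  obtain ⟨s, hs, hf⟩ := hf
  choose t ht hmem using hφ
  refine ⟨s.biUnion t, ?_, ?_⟩
  · refine (Finset.card_biUnion_le).trans ?_
    calc ∑ a ∈ s, (t a).card ≤ ∑ a ∈ s, R := Finset.sum_le_sum (fun a _ => ht a)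
      _ = s.card * R := by simp
      _ ≤ r * R := Nat.mul_le_mul_right _ hs
  · have : φ f ∈ (Submodule.span ℂ ((fun v => lin v ^ d) '' (s : Set (X → ℂ)))).map φ :=
      Submodule.mem_map_of_mem hf
    rw [Submodule.map_span] at this
    refine (Submodule.span_le.2 ?_) this
    rintro _ ⟨_, ⟨v, hv, rfl⟩, rfl⟩
    refine Submodule.span_mono (Set.image_mono ?_) (hmem v)
    intro w hw
    simp only [Finset.coe_biUnion, Set.mem_iUnion]
    exact ⟨v, hv, hw⟩

/-- weights with prescribed moments at the nodes `0, …, d` -/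
theorem exists_weights' (d : ℕ) (e : ℕ → ℂ) :
    ∃ c : Fin (d + 1) → ℂ, ∀ i : ℕ, i ≤ d →
      ∑ j : Fin (d + 1), c j * ((j : ℕ) : ℂ) ^ i = e i := by
  classical
  let M : Matrix (Fin (d + 1)) (Fin (d + 1)) ℂ := Matrix.vandermonde (fun j : Fin (d+1) => ((j : ℕ) : ℂ))
  have hdet : IsUnit M.det := by
    rw [isUnit_iff_ne_zero, Matrix.det_vandermonde_ne_zero_iff]
    intro i j hij
    simpa [Fin.ext_iff] using hij
  let e' : Fin (d + 1) → ℂ := fun i => e i
  refine ⟨Matrix.vecMul e' M⁻¹, ?_⟩
  intro i hi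
  have h1 : Matrix.vecMul (Matrix.vecMul e' M⁻¹) M = e' := by
    rw [Matrix.vecMul_vecMul, Matrix.nonsing_inv_mul _ hdet, Matrix.vecMul_one]
  have h2 := congrFun h1 ⟨i, by omega⟩
  simpa [Matrix.vecMul, dotProduct, M, Matrix.vandermonde_apply, e'] using h2

/-- extraction of a coefficient by interpolation -/
theorem exists_weights (d a : ℕ) :
    ∃ c : Fin (d + 1) → ℂ, ∀ i : ℕ, i ≤ d →
      ∑ j : Fin (d + 1), c j * ((j : ℕ) : ℂ) ^ i = if i = a then 1 else 0 :=
  exists_weights' d (fun i => if i = a then 1 else 0)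

theorem WR_pow_mul_pow (e a : ℕ) (u v : X → ℂ) :
    WR (e + a) (e + a + 1) (lin u ^ a * lin v ^ e) := by
  classical
  obtain ⟨c, hc⟩ := exists_weights (e + a) a
  have key : lin u ^ a * lin v ^ e =
      ∑ j : Fin (e + a + 1), ((((e + a).choose a : ℕ) : ℂ)⁻¹ * c j) •
        (lin (((j : ℕ) : ℂ) • u + v) ^ (e + a)) := by
    have h1 : ∀ j : Fin (e + a + 1), lin (((j : ℕ) : ℂ) • u + v) ^ (e + a) =
        ∑ i ∈ Finset.range (e + a + 1),
          ((((j : ℕ) : ℂ) ^ i * ((e + a).choose i : ℕ)) : ℂ) • (lin u ^ i * lin v ^ (e + a - i)) := by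
      intro j
      rw [lin_add, lin_smul, add_pow]
      refine Finset.sum_congr rfl (fun i _ => ?_)
      rw [MvPolynomial.smul_eq_C_mul, map_mul, map_pow, mul_pow]
      simp only [map_natCast]
      ring
    simp_rw [h1, Finset.smul_sum]
    rw [Finset.sum_comm]
    have h2 : ∀ i ∈ Finset.range (e + a + 1),
        ∑ j : Fin (e + a + 1), ((((e + a).choose a : ℕ) : ℂ)⁻¹ * c j) •
          (((((j : ℕ) : ℂ) ^ i * ((e + a).choose i : ℕ)) : ℂ) • (lin u ^ i * lin v ^ (e + a - i))) =
        if i = a then lin u ^ a * lin v ^ e else 0 := by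
      intro i hi
      rw [Finset.mem_range] at hi
      simp_rw [smul_smul]
      rw [← Finset.sum_smul]
      have h3 : ∑ j : Fin (e + a + 1), ((((e + a).choose a : ℕ) : ℂ)⁻¹ * c j *
          (((j : ℕ) : ℂ) ^ i * ((e + a).choose i : ℕ))) =
          (((e + a).choose a : ℕ) : ℂ)⁻¹ * ((e + a).choose i : ℕ) *
            ∑ j : Fin (e + a + 1), c j * ((j : ℕ) : ℂ) ^ i := by
        rw [Finset.mul_sum]
        refine Finset.sum_congr rfl (fun j _ => ?_)
        ring
      rw [h3, hc i (by omega)]
      split_ifs with hia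
      · subst hia
        have : (((e + i).choose i : ℕ) : ℂ) ≠ 0 := by
          exact_mod_cast (Nat.choose_pos (by omega)).ne'
        rw [inv_mul_cancel₀ this]
        simp
      · simp
    rw [Finset.sum_congr rfl h2]
    rw [Finset.sum_ite_eq' (Finset.range (e + a + 1)) a]
    simp
  rw [key]
  refine ⟨Finset.univ.image (fun j : Fin (e + a + 1) => ((j : ℕ) : ℂ) • u + v), ?_, ?_⟩
  · exact (Finset.card_image_le).trans (by simp)
  · refine Submodule.sum_mem _ (fun j _ => Submodule.smul_mem _ _ (Submodule.subset_span ?_))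
    exact ⟨((j : ℕ) : ℂ) • u + v, by simp, rfl⟩

theorem WR.pow_mul {e r : ℕ} {f : MvPolynomial X ℂ} (hf : WR e r f) (a : ℕ) (u : X → ℂ) :
    WR (e + a) (r * (e + a + 1)) (lin u ^ a * f) := by
  have := hf.map (LinearMap.mulLeft ℂ (lin u ^ a)) (e := e + a) (R := e + a + 1)
    (fun v => by simpa using WR_pow_mul_pow e a u v)
  simpa using this

theorem WR.lin_mul {e r : ℕ} {f : MvPolynomial X ℂ} (hf : WR e r f) (u : X → ℂ) :
    WR (e + 1) (r * (e + 2)) (lin u * f) := by
  have := hf.pow_mul 1 u
  simpa using this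

/-- linear substitutions do not increase the rank -/
theorem WR.subst {Y : Type*} [Fintype Y] {d r : ℕ} {f : MvPolynomial X ℂ} (hf : WR d r f)
    (M : X → Y → ℂ) : WR d r (aeval (fun x => lin (M x)) f) := by
  have := hf.map (aeval (fun x => lin (M x)) : MvPolynomial X ℂ →ₐ[ℂ] MvPolynomial Y ℂ).toLinearMap
    (e := d) (R := 1) (fun v => by
      refine ⟨{fun y => ∑ x, v x * M x y}, by simp, ?_⟩
      apply Submodule.subset_span
      refine ⟨_, by simp; rfl, ?_⟩
      simp only [AlgHom.toLinearMap_apply, map_pow]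
      congr 1
      simp only [lin, map_sum, map_mul, aeval_X, MvPolynomial.algHom_C, MvPolynomial.algebraMap_eq,
        Finset.sum_mul, Finset.mul_sum]
      rw [Finset.sum_comm]
      refine Finset.sum_congr rfl (fun x _ => Finset.sum_congr rfl (fun y _ => by ring)))
  simpa using this

theorem WR_monomial (d : ℕ) (S : Finset X) (m : X →₀ ℕ) (hm : m.support ⊆ S) (hd : m.degree ≤ d) :
    WR m.degree ((d + 1) ^ S.card) (monomial m (1 : ℂ)) := by
  classical
  induction S using Finset.induction_on generalizing m with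
  | empty =>
    have : m = 0 := by
      rw [← Finsupp.support_eq_empty]
      exact Finset.subset_empty.1 hm
    subst this
    refine ⟨{0}, by simp, ?_⟩
    apply Submodule.subset_span
    refine ⟨0, by simp, by simp⟩
  | insert a S ha ih =>
    let m' := m.erase a
    have hm' : m'.support ⊆ S := by
      intro x hx
      rw [Finsupp.support_erase, Finset.mem_erase] at hx
      have := hm hx.2
      rw [Finset.mem_insert] at this
      tauto
    have hsplit : m = m' + Finsupp.single a (m a) := (Finsupp.erase_add_single a m).symm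
    have hdeg : m.degree = m'.degree + m a := by
      conv_lhs => rw [hsplit]
      simp
    have h1 := ih m' hm' (by omega)
    have h2 := h1.pow_mul (m a) (Pi.single a 1)
    rw [lin_single] at h2
    have h3 : (MvPolynomial.X a : MvPolynomial X ℂ) ^ (m a) * monomial m' 1 = monomial m 1 := by
      conv_rhs => rw [hsplit]
      rw [X_pow_eq_monomial, monomial_mul, add_comm]
      simp
    rw [h3, ← hdeg] at h2
    refine h2.mono ?_
    rw [Finset.card_insert_of_notMem ha, pow_succ]
    exact Nat.mul_le_mul_left _ (by omega)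

theorem WR_base {d : ℕ} (S : Finset X) (f : MvPolynomial X ℂ) (hf : f.IsHomogeneous d)
    (hS : f.vars ⊆ S) : WR d ((d + 1) ^ (2 * S.card)) f := by
  classical
  have hsupp : ∀ m ∈ f.support, m.support ⊆ S ∧ m.degree = d := by
    intro m hm
    refine ⟨?_, ?_⟩
    · intro x hx
      apply hS
      rw [MvPolynomial.mem_vars_iff_mem_support]
      exact ⟨m, hm, hx⟩
    · have h1 := hf (mem_support_iff.1 hm)
      rw [Finsupp.degree_eq_weight_one]
      exact h1
  have hcard : f.support.card ≤ (d + 1) ^ S.card := by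
    let F : (X →₀ ℕ) → (S → Fin (d + 1)) := fun m x => Fin.ofNat (d + 1) (m x)
    have hinj : Set.InjOn F (f.support : Set (X →₀ ℕ)) := by
      intro m hm m' hm' hmm
      ext x
      by_cases hx : x ∈ S
      · have h1 := congrFun hmm ⟨x, hx⟩
        have hle : ∀ m ∈ f.support, m x < d + 1 := by
          intro m hm
          have := (hsupp m hm).2
          have h2 : m x ≤ m.degree := Finsupp.le_degree x m
          omega
        have h3 := hle m hm
        have h4 := hle m' hm'
        have h5 := congrArg Fin.val h1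
        simp only [F, Fin.ofNat] at h5
        rw [Nat.mod_eq_of_lt h3, Nat.mod_eq_of_lt h4] at h5
        exact h5
      · have h1 : m x = 0 := by
          by_contra h
          exact hx ((hsupp m hm).1 (Finsupp.mem_support_iff.2 h))
        have h2 : m' x = 0 := by
          by_contra h
          exact hx ((hsupp m' hm').1 (Finsupp.mem_support_iff.2 h))
        rw [h1, h2]
    have := Finset.card_le_card_of_injOn F (s := f.support) (t := Finset.univ)
      (fun _ _ => Finset.mem_univ _) hinj
    simpa using this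
  have hsum : f = ∑ m ∈ f.support, (coeff m f) • monomial m (1 : ℂ) := by
    conv_lhs => rw [f.as_sum]
    refine Finset.sum_congr rfl (fun m _ => ?_)
    rw [smul_monomial]
    simp
  rw [hsum]
  refine (WR.sum (r := (d + 1) ^ S.card) f.support _ (fun m hm => ?_)).mono ?_
  · obtain ⟨h1, h2⟩ := hsupp m hm
    have := WR_monomial d S m h1 h2.le
    rw [h2] at this
    exact this.smul _
  · calc f.support.card * (d + 1) ^ S.card ≤ (d + 1) ^ S.card * (d + 1) ^ S.card :=
        Nat.mul_le_mul_right _ hcard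
      _ = (d + 1) ^ (2 * S.card) := by rw [← pow_add]; congr 1; omega

/-- from the weighted to the unweighted form -/
theorem WR.toFin {d r : ℕ} (hd : d ≠ 0) {f : MvPolynomial X ℂ} (hf : WR d r f) :
    ∃ ℓ : Fin r → MvPolynomial X ℂ, (∀ i, (ℓ i).IsHomogeneous 1) ∧ f = ∑ i, ℓ i ^ d := by
  classical
  obtain ⟨s, hs, hf⟩ := hf
  have hhom : ∀ v : X → ℂ, (lin v).IsHomogeneous 1 := by
    intro v
    unfold lin
    refine IsHomogeneous.sum _ _ _ (fun x _ => ?_)
    have := (isHomogeneous_C X (v x)).mul (isHomogeneous_X ℂ x)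
    simpa using this
  rw [Submodule.mem_span_image_finset_iff_exists_fun'] at hf
  obtain ⟨c, hc⟩ := hf
  -- absorb the scalars
  have hroot : ∀ z : ℂ, ∃ w : ℂ, w ^ d = z := fun z => IsAlgClosed.exists_pow_nat_eq z (Nat.pos_of_ne_zero hd)
  choose w hw using hroot
  obtain ⟨n, hn⟩ : ∃ n, r = s.card + n := ⟨r - s.card, by omega⟩
  subst hn
  let e := s.equivFin
  refine ⟨fun i => Fin.addCases (fun j : Fin s.card => C (w (c (e.symm j))) * lin ((e.symm j : s) : X → ℂ))
    (fun _ : Fin n => 0) i, ?_, ?_⟩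
  · intro i
    refine Fin.addCases (fun j => ?_) (fun j => ?_) i
    · simp only [Fin.addCases_left]
      have := (isHomogeneous_C X (w (c (e.symm j)))).mul (hhom ((e.symm j : s) : X → ℂ))
      simpa using this
    · simp only [Fin.addCases_right]
      exact isHomogeneous_zero _ _ _
  · rw [Fin.sum_univ_add]
    simp only [Fin.addCases_left, Fin.addCases_right, zero_pow hd, Finset.sum_const_zero, add_zero]
    rw [← hc, ← Finset.sum_coe_sort s (fun v => c v • lin v ^ d), ← Equiv.sum_comp e.symm]
    refine Finset.sum_congr rfl (fun j _ => ?_)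
    rw [mul_pow, ← map_pow, hw, smul_eq_C_mul]

end Run7.h923
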