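import Pool.Agent.Run7.h923.Kill

set_option autoImplicit false
open MvPolynomial

namespace Run7.h923

section ops
variable {X : Type*}

theorem pderiv_comm (u v : X) (f : MvPolynomial X ℂ) :
    pderiv u (pderiv v f) = pderiv v (pderiv u f) := by
  classical
  ext m
  rw [coeff_pderiv, coeff_pderiv, coeff_pderiv, coeff_pderiv]
  have h1 : m + Finsupp.single u 1 + Finsupp.single v 1 =
      m + Finsupp.single v 1 + Finsupp.single u 1 := by
    rw [add_assoc, add_assoc, add_comm (Finsupp.single u 1)]
  rw [h1]
  by_cases huv : u = v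
  · subst huv
    rfl
  · simp only [Finsupp.add_apply, Finsupp.single_apply, huv, Ne.symm huv, if_false, add_zero]
    ring

theorem D_comm (u v u' v' : X) (f : MvPolynomial X ℂ) :
    D u v (D u' v' f) = D u' v' (D u v f) := by
  simp only [D_apply, map_sub, pderiv_comm u u', pderiv_comm u v', pderiv_comm v u',
    pderiv_comm v v']
  ring

/-- the composition of difference operators along a list of pairs -/
noncomputable def applyP : List (X × X) → MvPolynomial X ℂ →ₗ[ℂ] MvPolynomial X ℂ
  | [] => LinearMap.id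
  | t :: L => (applyP L).comp (D t.1 t.2)

theorem applyP_nil (f : MvPolynomial X ℂ) : applyP [] f = f := rfl

theorem applyP_cons (t : X × X) (L : List (X × X)) (f : MvPolynomial X ℂ) :
    applyP (t :: L) f = applyP L (D t.1 t.2 f) := rfl

theorem applyP_D (L : List (X × X)) (u v : X) (f : MvPolynomial X ℂ) :
    applyP L (D u v f) = D u v (applyP L f) := by
  induction L generalizing f with
  | nil => rfl
  | cons t L ih =>
    rw [applyP_cons, applyP_cons, ← ih, D_comm]

theorem applyP_append (L L' : List (X × X)) (f : MvPolynomial X ℂ) :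
    applyP (L ++ L') f = applyP L' (applyP L f) := by
  induction L generalizing f with
  | nil => rfl
  | cons t L ih => rw [List.cons_append, applyP_cons, applyP_cons, ih]

theorem applyP_sublist {L L' : List (X × X)} (h : L.Sublist L') (f : MvPolynomial X ℂ)
    (hf : applyP L' f ≠ 0) : applyP L f ≠ 0 := by
  induction h generalizing f with
  | slnil => exact hf
  | cons t h ih =>
    intro h0
    apply ih (D t.1 t.2 f) hf
    rw [applyP_D, h0, map_zero]
  | cons_cons t h ih =>
    exact ih (D t.1 t.2 f) hf

theorem applyP_swap (L1 L2 : List (X × X)) (u v : X) (f : MvPolynomial X ℂ) :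
    applyP (L1 ++ (v, u) :: L2) f = - applyP (L1 ++ (u, v) :: L2) f := by
  rw [applyP_append, applyP_append, applyP_cons, applyP_cons, ← map_neg]
  congr 1
  simp only [D_apply]
  ring

theorem D_rename {Y : Type*} {φ : X → Y} (hφ : Function.Injective φ) (u v : X)
    (f : MvPolynomial X ℂ) : D (φ u) (φ v) (rename φ f) = rename φ (D u v f) := by
  rw [D_apply, D_apply, map_sub, pderiv_rename hφ, pderiv_rename hφ]

theorem applyP_rename {Y : Type*} {φ : X → Y} (hφ : Function.Injective φ) (L : List (X × X))
    (f : MvPolynomial X ℂ) :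
    applyP (L.map (fun t => (φ t.1, φ t.2))) (rename φ f) = rename φ (applyP L f) := by
  induction L generalizing f with
  | nil => rfl
  | cons t L ih =>
    rw [List.map_cons, applyP_cons, applyP_cons, D_rename hφ, ih]

end ops

section lists

variable {V X : Type*} [DecidableEq V] [MulAction (Equiv.Perm V) X] {q : ℕ}

/-- the pair of variables attached to a triple -/
def pr (t : X × V × V) : X × X := (t.1, Equiv.swap t.2.1 t.2.2 • t.1)

def Adm (S : Sup V X q) : Finset V → List (X × V × V) → Prop
  | _, [] => True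
  | W, t :: L => t.2.1 ∈ W ∧ t.2.2 ∈ W ∧ t.2.1 ∈ S.supp t.1 ∧ t.2.2 ∉ S.supp t.1 ∧
      Adm S (W \ insert t.2.2 (S.supp t.1)) L

theorem exists_adm (S : Sup V X q) (K : ℕ) (W : Finset V) (f : MvPolynomial X ℂ)
    (h : ¬ Kill S K W f) :
    ∃ L : List (X × V × V), L.length = K ∧ Adm S W L ∧ applyP (L.map pr) f ≠ 0 := by
  induction K generalizing W f with
  | zero =>
    exact ⟨[], rfl, trivial, h⟩
  | succ K ih =>
    have h' : ∃ (x : X) (a p : V), a ∈ W ∧ p ∈ W ∧ a ∈ S.supp x ∧ p ∉ S.supp x ∧
        ¬ Kill S K (W \ insert p (S.supp x)) (D x (Equiv.swap a p • x) f) := by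
      by_contra hcon
      apply h
      intro x a p h1 h2 h3 h4
      by_contra h5
      exact hcon ⟨x, a, p, h1, h2, h3, h4, h5⟩
    obtain ⟨x, a, p, h1, h2, h3, h4, h5⟩ := h'
    obtain ⟨L, hL, hadm, hne⟩ := ih _ _ h5
    refine ⟨(x, a, p) :: L, by simp [hL], ⟨h1, h2, h3, h4, hadm⟩, ?_⟩
    rw [List.map_cons, applyP_cons]
    exact hne

/-- the relation of two independent triples -/
def Ind (S : Sup V X q) (t s : X × V × V) : Prop :=
  t.2.1 ∉ S.supp s.1 ∧ t.2.2 ∉ S.supp s.1 ∧ s.2.1 ∉ S.supp t.1 ∧ s.2.2 ∉ S.supp t.1 ∧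
    t.2.2 ≠ s.2.2

theorem Ind.symm {S : Sup V X q} {t s : X × V × V} (h : Ind S t s) : Ind S s t :=
  ⟨h.2.2.1, h.2.2.2.1, h.1, h.2.1, h.2.2.2.2.symm⟩

def uni (S : Sup V X q) (C : List (X × V × V)) : Finset V :=
  C.foldr (fun t acc => S.supp t.1 ∪ acc) ∅

def pts (L : List (X × V × V)) : Finset V :=
  L.foldr (fun t acc => insert t.2.1 (insert t.2.2 acc)) ∅

theorem mem_uni {S : Sup V X q} {C : List (X × V × V)} {v : V} :
    v ∈ uni S C ↔ ∃ t ∈ C, v ∈ S.supp t.1 := by
  induction C with
  | nil => simp [uni]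
  | cons t C ih =>
    have : uni S (t :: C) = S.supp t.1 ∪ uni S C := rfl
    rw [this, Finset.mem_union, ih]
    simp

omit [MulAction (Equiv.Perm V) X] in
theorem mem_pts {L : List (X × V × V)} {v : V} :
    v ∈ pts L ↔ ∃ t ∈ L, v = t.2.1 ∨ v = t.2.2 := by
  induction L with
  | nil => simp [pts]
  | cons t C ih =>
    have : pts (t :: C) = insert t.2.1 (insert t.2.2 (pts C)) := rfl
    rw [this, Finset.mem_insert, Finset.mem_insert, ih]
    simp [or_assoc]

theorem card_uni_le (S : Sup V X q) (C : List (X × V × V)) :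
    (uni S C).card ≤ C.length * q := by
  induction C with
  | nil => simp [uni]
  | cons t C ih =>
    have h1 : uni S (t :: C) = S.supp t.1 ∪ uni S C := rfl
    rw [h1]
    have h2 := Finset.card_union_le (S.supp t.1) (uni S C)
    have h3 := S.card_le t.1
    rw [List.length_cons]
    nlinarith

theorem Adm.pts_subset {S : Sup V X q} {W : Finset V} {L : List (X × V × V)}
    (h : Adm S W L) : pts L ⊆ W := by
  induction L generalizing W with
  | nil => simp [pts]
  | cons t L ih =>
    obtain ⟨h1, h2, h3, h4, h5⟩ := h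
    have : pts (t :: L) = insert t.2.1 (insert t.2.2 (pts L)) := rfl
    rw [this]
    intro v hv
    rw [Finset.mem_insert, Finset.mem_insert] at hv
    rcases hv with rfl | rfl | hv
    · exact h1
    · exact h2
    · exact (Finset.mem_sdiff.1 (ih h5 hv)).1

/-- kernel extraction -/
theorem extract (S : Sup V X q) (L : List (X × V × V)) (W : Finset V) (h : Adm S W L) :
    ∃ C : List (X × V × V), C.Sublist L ∧ C.Pairwise (Ind S) ∧
      (∀ t ∈ C, t.2.1 ∈ S.supp t.1 ∧ t.2.2 ∉ S.supp t.1) ∧
      L.length ≤ (uni S C ∩ pts L).card := by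
  induction L generalizing W with
  | nil => exact ⟨[], List.Sublist.slnil, List.Pairwise.nil, by simp, by simp⟩
  | cons t L ih =>
    obtain ⟨h1, h2, h3, h4, h5⟩ := h
    obtain ⟨C, hCL, hind, hC, hcard⟩ := ih _ h5
    have hsub := h5.pts_subset
    have ha : t.2.1 ∉ pts L := by
      intro hmem
      have := Finset.mem_sdiff.1 (hsub hmem)
      exact this.2 (Finset.mem_insert_of_mem h3)
    have hp : t.2.2 ∉ pts L := by
      intro hmem
      have := Finset.mem_sdiff.1 (hsub hmem)
      exact this.2 (Finset.mem_insert_self _ _)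
    have hpts : pts (t :: L) = insert t.2.1 (insert t.2.2 (pts L)) := rfl
    by_cases hc : t.2.1 ∈ uni S C ∨ t.2.2 ∈ uni S C
    · refine ⟨C, hCL.cons t, hind, hC, ?_⟩
      rw [List.length_cons]
      rcases hc with hc | hc
      · have : insert t.2.1 (uni S C ∩ pts L) ⊆ uni S C ∩ pts (t :: L) := by
          intro v hv
          rw [Finset.mem_insert, Finset.mem_inter] at hv
          rw [Finset.mem_inter, hpts, Finset.mem_insert, Finset.mem_insert]
          rcases hv with rfl | ⟨hv, hv'⟩
          · exact ⟨hc, Or.inl rfl⟩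
          · exact ⟨hv, Or.inr (Or.inr hv')⟩
        have h6 := Finset.card_le_card this
        rw [Finset.card_insert_of_notMem (by
          intro hmem
          exact ha (Finset.mem_inter.1 hmem).2)] at h6
        omega
      · have : insert t.2.2 (uni S C ∩ pts L) ⊆ uni S C ∩ pts (t :: L) := by
          intro v hv
          rw [Finset.mem_insert, Finset.mem_inter] at hv
          rw [Finset.mem_inter, hpts, Finset.mem_insert, Finset.mem_insert]
          rcases hv with rfl | ⟨hv, hv'⟩
          · exact ⟨hc, Or.inr (Or.inl rfl)⟩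
          · exact ⟨hv, Or.inr (Or.inr hv')⟩
        have h6 := Finset.card_le_card this
        rw [Finset.card_insert_of_notMem (by
          intro hmem
          exact hp (Finset.mem_inter.1 hmem).2)] at h6
        omega
    · push Not at hc
      refine ⟨t :: C, hCL.cons_cons t, ?_, ?_, ?_⟩
      · rw [List.pairwise_cons]
        refine ⟨?_, hind⟩
        intro s hs
        have hs1 : s.2.1 ∈ pts L := mem_pts.2 ⟨s, hCL.subset hs, Or.inl rfl⟩
        have hs2 : s.2.2 ∈ pts L := mem_pts.2 ⟨s, hCL.subset hs, Or.inr rfl⟩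
        have hs3 := Finset.mem_sdiff.1 (hsub hs1)
        have hs4 := Finset.mem_sdiff.1 (hsub hs2)
        refine ⟨?_, ?_, ?_, ?_, ?_⟩
        · intro h; exact hc.1 (mem_uni.2 ⟨s, hs, h⟩)
        · intro h; exact hc.2 (mem_uni.2 ⟨s, hs, h⟩)
        · intro h; exact hs3.2 (Finset.mem_insert_of_mem h)
        · intro h; exact hs4.2 (Finset.mem_insert_of_mem h)
        · intro h; exact hs4.2 (Finset.mem_insert.2 (Or.inl h.symm))
      · intro s hs
        rw [List.mem_cons] at hs
        rcases hs with rfl | hs
        · exact ⟨h3, h4⟩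
        · exact hC s hs
      · rw [List.length_cons]
        have : insert t.2.1 (uni S C ∩ pts L) ⊆ uni S (t :: C) ∩ pts (t :: L) := by
          intro v hv
          rw [Finset.mem_insert, Finset.mem_inter] at hv
          rw [Finset.mem_inter, hpts, Finset.mem_insert, Finset.mem_insert, mem_uni]
          rcases hv with rfl | ⟨hv, hv'⟩
          · exact ⟨⟨t, by simp, h3⟩, Or.inl rfl⟩
          · obtain ⟨s, hs, hvs⟩ := mem_uni.1 hv
            exact ⟨⟨s, by simp [hs], hvs⟩, Or.inr (Or.inr hv')⟩
        have h6 := Finset.card_le_card this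
        rw [Finset.card_insert_of_notMem (by
          intro hmem
          exact ha (Finset.mem_inter.1 hmem).2)] at h6
        omega

/-- from failure of the vanishing condition to an independent list of length `k` -/
theorem exists_indep (S : Sup V X q) (k K : ℕ) (hK : (k - 1) * q < K) (W : Finset V)
    (f : MvPolynomial X ℂ) (h : ¬ Kill S K W f) :
    ∃ C : List (X × V × V), C.length = k ∧ C.Pairwise (Ind S) ∧
      (∀ t ∈ C, t.2.1 ∈ S.supp t.1 ∧ t.2.2 ∉ S.supp t.1) ∧ applyP (C.map pr) f ≠ 0 := by
  obtain ⟨L, hL, hadm, hne⟩ := exists_adm S K W f h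
  obtain ⟨C, hCL, hind, hC, hcard⟩ := extract S L W hadm
  have h1 : L.length ≤ C.length * q :=
    hcard.trans ((Finset.card_le_card Finset.inter_subset_left).trans (card_uni_le S C))
  have h2 : k ≤ C.length := by
    by_contra hcon
    have h3 : C.length ≤ k - 1 := by omega
    have h4 : C.length * q ≤ (k - 1) * q := Nat.mul_le_mul_right _ h3
    omega
  have hsub : (C.take k).Sublist C := List.take_sublist k C
  refine ⟨C.take k, by simp [h2], hind.sublist hsub, ?_, ?_⟩
  · intro t ht
    exact hC t (hsub.subset ht)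
  · exact applyP_sublist ((hsub.trans hCL).map pr) f hne

end lists

end Run7.h923
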