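import Pool.Agent.Run7.h923.Border
import Pool.Agent.Run7.h923.Indep

set_option autoImplicit false
open MvPolynomial Filter Topology

namespace Run7.h923

/-- coloured tuples -/
def Yt (b q : ℕ) (V : Type) : Type := Fin b × (Fin q → V)

variable {b q : ℕ} {V : Type}

instance [Fintype V] [DecidableEq V] : Fintype (Yt b q V) :=
  inferInstanceAs (Fintype (Fin b × (Fin q → V)))

instance : MulAction (Equiv.Perm V) (Yt b q V) where
  smul σ y := (y.1, fun i => σ (y.2 i))
  one_smul _ := rfl
  mul_smul _ _ _ := rfl

theorem smul_def (σ : Equiv.Perm V) (y : Yt b q V) : σ • y = (y.1, fun i => σ (y.2 i)) := rfl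

def YSup [DecidableEq V] : Sup V (Yt b q V) q where
  supp y := Finset.univ.image y.2
  card_le y := Finset.card_image_le.trans (by simp)
  fix σ y h := by
    rw [smul_def]
    apply Prod.ext
    · rfl
    · funext i
      exact h _ (Finset.mem_image_of_mem _ (Finset.mem_univ i))
  equiv σ y := by
    rw [smul_def, Finset.image_image]
    rfl

theorem YSup_card [Fintype V] [DecidableEq V] (U : Finset V) :
    (Finset.univ.filter (fun y : Yt b q V => (YSup (b := b) (q := q)).supp y ⊆ U)).card ≤
      b * U.card ^ q := by
  classical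
  have h1 : (Finset.univ.filter (fun y : Yt b q V => (YSup (b := b) (q := q)).supp y ⊆ U)) ⊆
      ((Finset.univ : Finset (Fin b)) ×ˢ (Fintype.piFinset (fun _ : Fin q => U)) :
        Finset (Fin b × (Fin q → V))) := by
    intro y hy
    rw [Finset.mem_filter] at hy
    refine Finset.mem_product.2 ⟨Finset.mem_univ _, ?_⟩
    rw [Fintype.mem_piFinset]
    intro i
    exact hy.2 (Finset.mem_image_of_mem _ (Finset.mem_univ i))
  have h2 : ((Finset.univ : Finset (Fin b)) ×ˢ (Fintype.piFinset (fun _ : Fin q => U)) :
        Finset (Fin b × (Fin q → V))).card = b * U.card ^ q := by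
    rw [Finset.card_product, Fintype.card_piFinset_const]
    simp
  exact (Finset.card_le_card h1).trans h2.le

theorem card_Yt [Fintype V] [DecidableEq V] : Fintype.card (Yt b q V) = b * Fintype.card V ^ q := by
  have : Fintype.card (Yt b q V) = Fintype.card (Fin b × (Fin q → V)) := rfl
  rw [this]
  simp

/-- main theorem for coloured tuples: few derivatives of order `k` imply small rank -/
theorem main_tuples [Fintype V] [DecidableEq V] (d k M : ℕ)
    (hM : k * q + k * M * 2 ≤ Fintype.card V)
    (F : MvPolynomial (Yt b q V) ℂ) (hF : F.IsHomogeneous d)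
    (hsym : ∀ σ : Equiv.Perm V, act (Yt b q V) σ F = F)
    (hdim : Module.finrank ℂ (Ders k F) < M ^ k) :
    WR d (bnd (fun u => b * u ^ q) d q (Fintype.card V)
      ((d + 2) * (b * Fintype.card V ^ q * (d + 2))) ((k - 1) * q + 1) 0) F := by
  classical
  have hkill : Kill (YSup (b := b) (q := q) (V := V)) ((k - 1) * q + 1) Finset.univ F := by
    by_contra hnk
    obtain ⟨C, hCk, hind, hC, hne⟩ := exists_indep (YSup (b := b) (q := q) (V := V)) k
      ((k - 1) * q + 1) (by omega) Finset.univ F hnk
    subst hCk
    obtain ⟨σ, hσ⟩ := lin_indep (YSup (b := b) (q := q) (V := V)) C hind hC M hM F hsym hne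
    have hmem : ∀ h, act (Yt b q V) (σ h) (applyP (C.map pr) F) ∈ Ders C.length F := by
      intro h
      rw [act_applyP _ _ _ (hsym _)]
      have := applyP_mem_Ders ((C.map pr).map (fun t => (σ h • t.1, σ h • t.2))) F
      simpa using this
    have hfin := Ders_finite C.length F
    have h1 : LinearIndependent ℂ (fun h => (⟨act (Yt b q V) (σ h) (applyP (C.map pr) F), hmem h⟩ :
        Ders C.length F)) := by
      apply LinearIndependent.of_comp (Submodule.subtype _)
      exact hσ
    have h2 := h1.fintype_card_le_finrank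
    rw [Fintype.card_fun, Fintype.card_fin, Fintype.card_fin] at h2
    omega
  have hmono : Monotone (fun u : ℕ => b * u ^ q) := by
    intro u v huv
    exact Nat.mul_le_mul_left _ (Nat.pow_le_pow_left huv _)
  refine peel (YSup (b := b) (q := q) (V := V)) (fun u => b * u ^ q) hmono YSup_card d
    ((d + 2) * (b * Fintype.card V ^ q * (d + 2))) ?_ ((k - 1) * q + 1) 0 d F Finset.univ
    Finset.univ (Finset.Subset.refl _) (by simp) hF le_rfl
    (fun x _ => Finset.subset_univ _) hkill
  rw [card_Yt]

end Run7.h923
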