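import Pool.Agent.Run7.h923.ZetaTrace

/-!
# Zeta-invariants as limits of differences of traces
-/

set_option autoImplicit false

namespace Run7.h923.ZT

open Matrix

theorem pow_apply_paths {I : Type} [Fintype I] [DecidableEq I] (B : Matrix I I ℂ) (m : ℕ) :
    ∀ x y : I, (B ^ (m + 1)) x y = ∑ q : Fin m → I, ∏ i : Fin (m + 1),
      B ((Fin.cons x q : Fin (m + 1) → I) i) ((Fin.snoc q y : Fin (m + 1) → I) i) := by
  induction m with
  | zero =>
    intro x y
    show (B ^ 1) x y = ∑ q : Fin 0 → I, ∏ i : Fin 1,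
      B ((Fin.cons x q : Fin 1 → I) i) ((Fin.snoc q y : Fin 1 → I) i)
    rw [pow_one, Fintype.sum_unique, Fin.prod_univ_one]
    rfl
  | succ m ih =>
    intro x y
    rw [pow_succ', Matrix.mul_apply, ← (Fin.consEquiv fun _ => I).sum_comp, Fintype.sum_prod_type]
    refine Finset.sum_congr rfl fun z _ => ?_
    rw [ih z y, Finset.mul_sum]
    refine Finset.sum_congr rfl fun q _ => ?_
    rw [Fin.prod_univ_succ (n := m + 1)]
    congr 1
    refine Finset.prod_congr rfl fun i _ => ?_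
    simp only [Fin.consEquiv, Equiv.coe_fn_mk, Fin.cons_succ]
    rw [← Fin.cons_snoc_eq_snoc_cons, Fin.cons_succ]

theorem trace_pow_paths {I : Type} [Fintype I] [DecidableEq I] (B : Matrix I I ℂ) (m : ℕ) :
    (B ^ (m + 1)).trace = ∑ p : Fin (m + 1) → I, ∏ i, B (p i) (p (i + 1)) := by
  rw [Matrix.trace, ← (Fin.consEquiv fun _ => I).sum_comp, Fintype.sum_prod_type]
  refine Finset.sum_congr rfl fun x _ => ?_
  rw [Matrix.diag_apply, pow_apply_paths]
  refine Finset.sum_congr rfl fun q _ => ?_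
  refine Finset.prod_congr rfl fun i _ => ?_
  rw [Fin.snoc_eq_cons_rotate]
  show B ((Fin.cons x q : Fin (m + 1) → I) i)
    ((Fin.cons x q : Fin (m + 1) → I) (finRotate (m + 1) i)) = _
  rw [finRotate_apply]
  rfl

/-- the term of a closed path -/
noncomputable def F {m : ℕ} (c : ℤ → ℂ) (p : Fin (m + 1) → ℤ) : ℂ :=
  (((|∏ i, p i| - ∏ i, p i : ℤ)) : ℂ) * ∏ i, c (p (i + 1) - p i)

/-- the sign of an integer, `1` for `0` -/
noncomputable def sg (x : ℤ) : ℂ := if x < 0 then -1 else 1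

theorem sg_mul_abs (x : ℤ) : sg x * ((|x| : ℤ) : ℂ) = (x : ℂ) := by
  unfold sg
  split
  · next h => rw [abs_of_neg h]; push_cast; ring
  · next h => rw [abs_of_nonneg (not_lt.1 h), one_mul]

/-- the hermitian matrix -/
noncomputable def Sm (s : Finset ℤ) (c : ℤ → ℂ) : Matrix s s ℂ :=
  fun x y => ((Real.sqrt |((x : ℤ) : ℝ)| : ℝ) : ℂ) * c ((y : ℤ) - x) *
    ((Real.sqrt |((y : ℤ) : ℝ)| : ℝ) : ℂ)

theorem Sm_herm (s : Finset ℤ) (c : ℤ → ℂ) (hc : ∀ n, c (-n) = star (c n)) :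
    (Sm s c)ᴴ = Sm s c := by
  ext x y
  rw [Matrix.conjTranspose_apply]
  unfold Sm
  rw [star_mul', star_mul', ← hc, Complex.star_def, Complex.conj_ofReal,
    Complex.conj_ofReal]
  rw [neg_sub]
  ring

theorem sqrt_mul_self' (x : ℤ) : ((Real.sqrt |(x : ℝ)| : ℝ) : ℂ) * ((Real.sqrt |(x : ℝ)| : ℝ) : ℂ) =
    ((|x| : ℤ) : ℂ) := by
  rw [← Complex.ofReal_mul, Real.mul_self_sqrt (abs_nonneg _), ← Int.cast_abs]
  exact Complex.ofReal_intCast _

theorem prod_Sm {m : ℕ} (s : Finset ℤ) (c : ℤ → ℂ) (q : Fin (m + 1) → s) :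
    ∏ i, Sm s c (q i) (q (i + 1)) =
      ((|∏ i, (q i : ℤ)| : ℤ) : ℂ) * ∏ i, c ((q (i + 1) : ℤ) - q i) := by
  unfold Sm
  rw [Finset.prod_mul_distrib, Finset.prod_mul_distrib]
  have h1 : ∏ i, ((Real.sqrt |((q (i + 1) : ℤ) : ℝ)| : ℝ) : ℂ) =
      ∏ i, ((Real.sqrt |((q i : ℤ) : ℝ)| : ℝ) : ℂ) :=
    Fintype.prod_equiv (Equiv.addRight (1 : Fin (m + 1))) _ _ fun i => rfl
  rw [h1, Finset.abs_prod]
  push_cast
  rw [mul_right_comm, ← Finset.prod_mul_distrib]
  congr 1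
  refine Finset.prod_congr rfl fun i _ => ?_
  rw [sqrt_mul_self']

theorem sum_piFinset {m : ℕ} (s : Finset ℤ) (f : (Fin (m + 1) → ℤ) → ℂ) :
    ∑ p ∈ Fintype.piFinset (fun _ : Fin (m + 1) => s), f p =
      ∑ q : Fin (m + 1) → s, f (fun i => (q i : ℤ)) := by
  have : Fintype {p : Fin (m + 1) → ℤ // ∀ i, p i ∈ s} :=
    Fintype.ofEquiv _ (Equiv.subtypePiEquivPi (p := fun _ x => x ∈ s)).symm
  rw [Finset.sum_subtype (p := fun p : Fin (m + 1) → ℤ => ∀ i, p i ∈ s) _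
    (fun x => by simp [Fintype.mem_piFinset])]
  exact Fintype.sum_equiv (Equiv.subtypePiEquivPi (p := fun _ x => x ∈ s)) _ _ fun q => rfl

open scoped ComplexOrder in
theorem trunc_nonneg {m : ℕ} (hm : Even (m + 1)) (s : Finset ℤ) (c : ℤ → ℂ)
    (hc : ∀ n, c (-n) = star (c n)) :
    (0 : ℂ) ≤ ∑ p ∈ Fintype.piFinset (fun _ : Fin (m + 1) => s), F c p := by
  obtain ⟨k, hk⟩ := hm
  have hk1 : 1 ≤ k := by omega
  have h := trace_sub_nonneg (fun x : s => sg x)
    (fun x => by unfold sg; split <;> simp) (fun x => by unfold sg; split <;> simp)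
    (Sm s c) (Sm_herm s c hc) k hk1
  rw [← two_mul] at hk
  rw [← hk, trace_pow_paths, trace_pow_paths] at h
  rw [sum_piFinset]
  convert h using 1
  rw [← Finset.sum_sub_distrib]
  refine Finset.sum_congr rfl fun q _ => ?_
  have h2 : ∏ i, (Matrix.diagonal (fun x : s => sg x) * Sm s c) (q i) (q (i + 1)) =
      ((∏ i, (q i : ℤ) : ℤ) : ℂ) * ∏ i, c ((q (i + 1) : ℤ) - q i) := by
    simp only [Matrix.diagonal_mul]
    rw [Finset.prod_mul_distrib, prod_Sm, ← mul_assoc]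
    congr 1
    rw [Finset.abs_prod]
    push_cast
    rw [← Finset.prod_mul_distrib]
    refine Finset.prod_congr rfl fun i _ => ?_
    exact sg_mul_abs (q i)
  rw [prod_Sm, h2]
  unfold F
  push_cast
  ring

/-- the vertices of the path -/
def pt {m : ℕ} (j : Fin (m + 1) → ℤ) (n : ℤ) (i : Fin (m + 1)) : ℤ :=
  n + ∑ l ∈ Finset.Iio i, j l

theorem Iio_succ {m : ℕ} (i : Fin m) :
    Finset.Iio (i.succ) = insert (i.castSucc) (Finset.Iio (i.castSucc) : Finset (Fin (m + 1))) := by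
  ext x
  simp only [Finset.mem_Iio, Finset.mem_insert, Fin.lt_def, Fin.ext_iff, Fin.val_succ,
    Fin.val_castSucc]
  omega

theorem pt_zero {m : ℕ} (j : Fin (m + 1) → ℤ) (n : ℤ) : pt j n 0 = n := by
  unfold pt
  have : (Finset.Iio (0 : Fin (m + 1))) = ∅ := by
    ext x; simp
  rw [this, Finset.sum_empty, add_zero]

theorem pt_succ {m : ℕ} (j : Fin (m + 1) → ℤ) (n : ℤ) (i : Fin m) :
    pt j n i.succ = pt j n i.castSucc + j i.castSucc := by
  unfold pt
  rw [Iio_succ, Finset.sum_insert (by simp)]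
  ring

theorem pt_last {m : ℕ} (j : Fin (m + 1) → ℤ) (hj : ∑ i, j i = 0) (n : ℤ) :
    pt j n (Fin.last m) = n - j (Fin.last m) := by
  unfold pt
  have h1 : (Finset.univ : Finset (Fin (m + 1))) = insert (Fin.last m) (Finset.Iio (Fin.last m)) := by
    ext x
    simp only [Finset.mem_univ, Finset.mem_insert, Finset.mem_Iio, true_iff]
    exact (Fin.le_last x).eq_or_lt
  rw [h1, Finset.sum_insert (by simp)] at hj
  linarith

theorem pt_rot {m : ℕ} (j : Fin (m + 1) → ℤ) (hj : ∑ i, j i = 0) (n : ℤ) (i : Fin (m + 1)) :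
    pt j n (i + 1) - pt j n i = j i := by
  rcases Fin.eq_castSucc_or_eq_last i with ⟨i', rfl⟩ | rfl
  · rw [Fin.coeSucc_eq_succ, pt_succ]; ring
  · rw [Fin.last_add_one, pt_zero, pt_last j hj]; ring

/-- closed paths -/
def paths (m : ℕ) : ({j : Fin (m + 1) → ℤ // ∑ i, j i = 0} × ℤ) ≃ (Fin (m + 1) → ℤ) where
  toFun x := pt x.1.1 x.2
  invFun p := (⟨fun i => p (i + 1) - p i, by
    rw [Finset.sum_sub_distrib, sub_eq_zero]
    exact Fintype.sum_equiv (Equiv.addRight (1 : Fin (m + 1))) _ _ fun i => rfl⟩, p 0)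
  left_inv x := by
    ext i
    · exact pt_rot x.1.1 x.1.2 x.2 i
    · exact pt_zero x.1.1 x.2
  right_inv p := by
    funext i
    induction i using Fin.induction with
    | zero => exact pt_zero _ _
    | succ i ih =>
      simp only at ih ⊢
      rw [pt_succ, ih, Fin.coeSucc_eq_succ]
      ring

theorem F_paths {m : ℕ} (c : ℤ → ℂ) (x : {j : Fin (m + 1) → ℤ // ∑ i, j i = 0} × ℤ) :
    F c (paths m x) = (((|∏ i, (x.2 + ∑ l ∈ Finset.Iio i, x.1.1 l)| -
      ∏ i, (x.2 + ∑ l ∈ Finset.Iio i, x.1.1 l) : ℤ)) : ℂ) * ∏ i, c (x.1.1 i) := by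
  unfold F
  congr 1
  exact Finset.prod_congr rfl fun i _ => congrArg c (pt_rot x.1.1 x.1.2 x.2 i)

theorem term_zero {m : ℕ} (hm : Even (m + 1)) (t : Fin (m + 1) → ℤ) (n : ℤ)
    (hn : ∑ i, |t i| < |n|) : |∏ i, (n + t i)| - ∏ i, (n + t i) = 0 := by
  have hb : ∀ i, |t i| < |n| := fun i =>
    lt_of_le_of_lt (Finset.single_le_sum (fun i _ => abs_nonneg (t i)) (Finset.mem_univ i)) hn
  rw [sub_eq_zero, abs_eq_self]
  rcases lt_or_ge n 0 with h | h
  · have h1 : ∏ i, (n + t i) = ∏ i, (-(n + t i)) := by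
      rw [Finset.prod_neg, Finset.card_univ, Fintype.card_fin, hm.neg_one_pow, one_mul]
    rw [h1]
    refine Finset.prod_nonneg fun i _ => ?_
    have := abs_lt.1 (hb i)
    rw [abs_of_neg h] at this
    omega
  · refine Finset.prod_nonneg fun i _ => ?_
    have := abs_lt.1 (hb i)
    rw [abs_of_nonneg h] at this
    omega

open scoped ComplexOrder in
theorem core (m : ℕ) (hm : Even (m + 1)) (c : ℤ → ℂ) (hc : ∀ n, c (-n) = star (c n)) :
    (0 : ℂ) ≤ ∑' j : {j : Fin (m + 1) → ℤ // ∑ i, j i = 0},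
      (((∑ᶠ n : ℤ, (|∏ i : Fin (m + 1), (n + ∑ l ∈ Finset.Iio i, j.1 l)|
        - ∏ i : Fin (m + 1), (n + ∑ l ∈ Finset.Iio i, j.1 l))) : ℤ) : ℂ) *
        ∏ i : Fin (m + 1), c (j.1 i) := by
  classical
  set D : {j : Fin (m + 1) → ℤ // ∑ i, j i = 0} → ℤ → ℤ := fun j n =>
    |∏ i : Fin (m + 1), (n + ∑ l ∈ Finset.Iio i, j.1 l)|
        - ∏ i : Fin (m + 1), (n + ∑ l ∈ Finset.Iio i, j.1 l) with hD
  have hD0 : ∀ j n, 0 ≤ D j n := fun j n => sub_nonneg.2 (le_abs_self _)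
  set R : {j : Fin (m + 1) → ℤ // ∑ i, j i = 0} → Finset ℤ := fun j =>
    Finset.Icc (-(∑ i : Fin (m + 1), |∑ l ∈ Finset.Iio i, j.1 l|))
      (∑ i : Fin (m + 1), |∑ l ∈ Finset.Iio i, j.1 l|) with hR
  have hDR : ∀ j n, n ∉ R j → D j n = 0 := by
    intro j n hn
    refine term_zero hm _ n ?_
    by_contra hlt
    push Not at hlt
    exact hn (Finset.mem_Icc.2 (abs_le.1 hlt))
  have hfs : ∀ j, (∑ᶠ n : ℤ, D j n) = ∑ n ∈ R j, D j n := by
    intro j
    refine finsum_eq_sum_of_support_subset _ fun n hn => ?_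
    by_contra h
    exact hn (hDR j n h)
  by_cases hs : Summable fun j : {j : Fin (m + 1) → ℤ // ∑ i, j i = 0} =>
      ((∑ᶠ n : ℤ, D j n : ℤ) : ℂ) * ∏ i : Fin (m + 1), c (j.1 i)
  swap
  · rw [tsum_eq_zero_of_not_summable hs]
  have hG : Summable fun x : {j : Fin (m + 1) → ℤ // ∑ i, j i = 0} × ℤ =>
      ((D x.1 x.2 : ℤ) : ℂ) * ∏ i : Fin (m + 1), c (x.1.1 i) := by
    rw [← summable_norm_iff]
    rw [summable_prod_of_nonneg (fun x => norm_nonneg _)]
    constructor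
    · intro j
      refine summable_of_ne_finset_zero (s := R j) fun n hn => ?_
      simp only
      rw [hDR j n hn]; simp
    · refine (summable_norm_iff.2 hs).congr fun j => ?_
      rw [tsum_eq_sum (s := R j) (fun n hn => by simp only; rw [hDR j n hn]; simp), hfs j]
      simp only [norm_mul]
      rw [← Finset.sum_mul]
      congr 1
      push_cast
      rw [← Int.cast_sum, Complex.norm_intCast, ← Int.cast_abs,
        abs_of_nonneg (Finset.sum_nonneg fun n _ => hD0 j n)]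
      push_cast
      refine Finset.sum_congr rfl fun n _ => ?_
      rw [Complex.norm_intCast, ← Int.cast_abs, abs_of_nonneg (hD0 j n)]
  have hts : ∑' j : {j : Fin (m + 1) → ℤ // ∑ i, j i = 0},
      ((∑ᶠ n : ℤ, D j n : ℤ) : ℂ) * ∏ i : Fin (m + 1), c (j.1 i) =
        ∑' p : Fin (m + 1) → ℤ, F c p := by
    rw [← (paths m).tsum_eq (F c)]
    have h1 : (fun x => F c (paths m x)) = fun x : {j : Fin (m + 1) → ℤ // ∑ i, j i = 0} × ℤ =>
      ((D x.1 x.2 : ℤ) : ℂ) * ∏ i : Fin (m + 1), c (x.1.1 i) := funext fun x => F_paths c x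
    rw [h1, hG.tsum_prod]
    refine tsum_congr fun j => ?_
    rw [tsum_eq_sum (s := R j) (fun n hn => by simp only; rw [hDR j n hn]; simp), hfs j]
    simp only
    rw [← Finset.sum_mul]
    push_cast
    rfl
  have hFs : Summable (F (m := m) c) := by
    rw [← (paths m).summable_iff]
    refine hG.congr fun x => ?_
    exact (F_paths c x).symm
  show (0 : ℂ) ≤ ∑' j : {j : Fin (m + 1) → ℤ // ∑ i, j i = 0},
      ((∑ᶠ n : ℤ, D j n : ℤ) : ℂ) * ∏ i : Fin (m + 1), c (j.1 i)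
  rw [hts]
  have htend : Filter.Tendsto (fun M : ℕ => Fintype.piFinset
      (fun _ : Fin (m + 1) => Finset.Icc (-(M : ℤ)) M)) Filter.atTop Filter.atTop := by
    refine Filter.tendsto_atTop_finset_of_monotone ?_ ?_
    · intro M N h
      refine Fintype.piFinset_subset _ _ fun _ => Finset.Icc_subset_Icc ?_ ?_
      · have : (M : ℤ) ≤ N := by exact_mod_cast h
        omega
      · exact_mod_cast h
    · intro p
      refine ⟨(∑ i, |p i|).toNat, ?_⟩
      rw [Fintype.mem_piFinset]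
      intro i
      have h1 : |p i| ≤ ∑ i, |p i| :=
        Finset.single_le_sum (fun i _ => abs_nonneg (p i)) (Finset.mem_univ i)
      rw [Finset.mem_Icc, ← abs_le, Int.toNat_of_nonneg (Finset.sum_nonneg fun i _ => abs_nonneg _)]
      exact h1
  have hlim := hFs.hasSum.comp htend
  refine ge_of_tendsto' hlim fun M => ?_
  exact trunc_nonneg hm _ c hc

end Run7.h923.ZT
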